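import Pool.Agent.Q19.DB.Defs

/-!
# The completely fundamental solutions generate the cone
-/

open Finset

namespace Pool.Agent.Q19.DB

variable {r n : ℕ} (Φ : Matrix (Fin r) (Fin n) ℤ)

/-- real version of the matrix -/
noncomputable abbrev RM : Matrix (Fin r) (Fin n) ℝ := Φ.map (Int.cast : ℤ → ℝ)

theorem cone_smul {x : Fin n → ℝ} (hx : x ∈ cone Φ) {c : ℝ} (hc : 0 ≤ c) : c • x ∈ cone Φ := by
  refine ⟨fun i => mul_nonneg hc (hx.1 i), ?_⟩
  rw [Matrix.mulVec_smul, hx.2, smul_zero]

theorem cone_add {x y : Fin n → ℝ} (hx : x ∈ cone Φ) (hy : y ∈ cone Φ) : x + y ∈ cone Φ := by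
  refine ⟨fun i => add_nonneg (hx.1 i) (hy.1 i), ?_⟩
  rw [Matrix.mulVec_add, hx.2, hy.2, add_zero]

/-- a vector supported in the support of a nonnegative vector can be subtracted a bit -/
theorem exists_eps (x y : Fin n → ℝ) (hx : ∀ i, 0 ≤ x i) (h : ∀ i, x i = 0 → y i = 0) :
    ∃ ε : ℝ, 0 < ε ∧ ∀ i, 0 ≤ x i - ε * y i := by
  have h1 : ∀ᶠ ε in nhdsWithin (0 : ℝ) (Set.Ioi 0), ∀ i, 0 ≤ x i - ε * y i := by
    rw [Filter.eventually_all]
    intro i
    rcases eq_or_lt_of_le (hx i) with h2 | h2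
    · refine Filter.Eventually.of_forall fun ε => ?_
      rw [h i h2.symm, ← h2]
      simp
    · have h3 : Filter.Tendsto (fun ε : ℝ => x i - ε * y i) (nhdsWithin (0 : ℝ) (Set.Ioi 0))
          (nhds (x i - 0 * y i)) :=
        ((continuous_const.sub (continuous_id.mul continuous_const)).tendsto 0).mono_left
          nhdsWithin_le_nhds
      rw [zero_mul, sub_zero] at h3
      filter_upwards [h3.eventually (Ioi_mem_nhds h2)] with ε hε
      exact le_of_lt hε
  obtain ⟨ε, h3, h4⟩ := (h1.and self_mem_nhdsWithin).exists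
  exact ⟨ε, h4, h3⟩

theorem ext_min {x y : Fin n → ℝ} (hx : SpansExtremeRay Φ x) (hy : y ∈ cone Φ)
    (h : ∀ i, x i = 0 → y i = 0) : ∃ t : ℝ, 0 ≤ t ∧ y = t • x := by
  obtain ⟨ε, hε, h1⟩ := exists_eps x y hx.1.1 h
  have h2 : x - ε • y ∈ cone Φ := by
    refine ⟨h1, ?_⟩
    rw [Matrix.mulVec_sub, Matrix.mulVec_smul, hx.1.2, hy.2]
    simp
  obtain ⟨t, h3, h4⟩ := hx.2.2 (ε • y) (cone_smul Φ hy hε.le) (x - ε • y) h2 (by abel)
  refine ⟨ε⁻¹ * t, by positivity, ?_⟩
  rw [mul_smul, ← h4, smul_smul, inv_mul_cancel₀ hε.ne', one_smul]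

theorem min_ext {x : Fin n → ℝ} (hx : x ∈ cone Φ) (hx0 : x ≠ 0)
    (h : ∀ y ∈ cone Φ, (∀ i, x i = 0 → y i = 0) → ∃ t : ℝ, 0 ≤ t ∧ y = t • x) :
    SpansExtremeRay Φ x := by
  refine ⟨hx, hx0, ?_⟩
  intro y hy z hz hyz
  apply h y hy
  intro i hi
  have h1 := congrFun hyz i
  simp only [Pi.add_apply] at h1
  linarith [hy.1 i, hz.1 i]

/-- A real kernel vector of an integer matrix gives an integer kernel vector. -/
theorem int_kernel {m : Type} [Fintype m] [DecidableEq m] {n : ℕ} (M : Matrix m (Fin n) ℤ)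
    (y : Fin n → ℝ) (hy : y ≠ 0) (h : (M.map (Int.cast : ℤ → ℝ)).mulVec y = 0) :
    ∃ z : Fin n → ℤ, z ≠ 0 ∧ M.mulVec z = 0 := by
  have h1 : ((M.transpose * M).map (Int.cast : ℤ → ℝ)).mulVec y = 0 := by
    have : (M.transpose * M).map (Int.cast : ℤ → ℝ) =
        (M.map (Int.cast : ℤ → ℝ)).transpose * (M.map (Int.cast : ℤ → ℝ)) := by
      ext i j
      simp [Matrix.mul_apply]
    rw [this, ← Matrix.mulVec_mulVec, h, Matrix.mulVec_zero]
  have h2 : ((M.transpose * M).map (Int.cast : ℤ → ℝ)).det = 0 :=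
    Matrix.exists_mulVec_eq_zero_iff.mp ⟨y, hy, h1⟩
  have h3 : (M.transpose * M).det = 0 := by
    have h4 : ((M.transpose * M).det : ℝ) = ((M.transpose * M).map (Int.cast : ℤ → ℝ)).det := by
      exact (Int.castRingHom ℝ).map_det _
    rw [h2] at h4
    exact_mod_cast h4
  obtain ⟨z, hz, h4⟩ := Matrix.exists_mulVec_eq_zero_iff.mpr h3
  refine ⟨z, hz, ?_⟩
  rw [← Matrix.mulVec_mulVec] at h4
  have h5 : dotProduct (M.mulVec z) (M.mulVec z) = 0 := by
    have h6 : dotProduct z (M.transpose.mulVec (M.mulVec z)) = 0 := by rw [h4]; simp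
    rw [Matrix.dotProduct_mulVec, Matrix.vecMul_transpose] at h6
    exact h6
  exact dotProduct_self_eq_zero.mp h5

/-- Below every nonzero vector of the cone there is an element of `CF`. -/
theorem exists_CF {x : Fin n → ℝ} (hx : x ∈ cone Φ) (hx0 : x ≠ 0) :
    ∃ δ ∈ CF Φ, ∀ i, x i = 0 → δ i = 0 := by
  classical
  let Pm : ℕ → Prop := fun m => ∃ y ∈ cone Φ, y ≠ 0 ∧ (∀ i, x i = 0 → y i = 0) ∧
    (Finset.univ.filter (fun i => y i ≠ 0)).card = m
  have hex : ∃ m, Pm m := ⟨_, x, hx, hx0, fun i h => h, rfl⟩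
  obtain ⟨y, hy, hy0, hyx, hcard⟩ := Nat.find_spec hex
  have hmin : ∀ w ∈ cone Φ, w ≠ 0 → (∀ i, x i = 0 → w i = 0) →
      (Finset.univ.filter (fun i => y i ≠ 0)).card ≤
        (Finset.univ.filter (fun i => w i ≠ 0)).card := by
    intro w hw hw0 hwx
    rw [hcard]
    exact Nat.find_min' hex ⟨w, hw, hw0, hwx, rfl⟩
  -- the solutions supported in `y` are multiples
  have hmul0 : ∀ v : Fin n → ℝ, (RM Φ).mulVec v = 0 → (∀ i, y i = 0 → v i = 0) →
      (∃ i, 0 < v i) → ∃ t : ℝ, v = t • y := by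
    intro v hv hvy ⟨i0, hi0⟩
    let S := Finset.univ.filter (fun i => 0 < v i)
    have hS : S.Nonempty := ⟨i0, Finset.mem_filter.mpr ⟨Finset.mem_univ _, hi0⟩⟩
    obtain ⟨i1, hi1, hle⟩ := Finset.exists_min_image S (fun i => y i / v i) hS
    have hv1 : 0 < v i1 := (Finset.mem_filter.mp hi1).2
    set t := y i1 / v i1 with ht
    have hy1 : 0 < y i1 := by
      rcases eq_or_lt_of_le (hy.1 i1) with h | h
      · have := hvy i1 h.symm
        linarith
      · exact h
    have htpos : 0 < t := div_pos hy1 hv1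
    by_cases hw0 : y - t • v = 0
    · refine ⟨t⁻¹, ?_⟩
      rw [sub_eq_zero.mp hw0, smul_smul, inv_mul_cancel₀ htpos.ne', one_smul]
    · exfalso
      have hw : y - t • v ∈ cone Φ := by
        constructor
        · intro i
          simp only [Pi.sub_apply, Pi.smul_apply, smul_eq_mul]
          by_cases hvi : 0 < v i
          · have := hle i (Finset.mem_filter.mpr ⟨Finset.mem_univ _, hvi⟩)
            rw [le_div_iff₀ hvi] at this
            linarith
          · have h1 : t * v i ≤ 0 := mul_nonpos_of_nonneg_of_nonpos htpos.le (not_lt.mp hvi)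
            linarith [hy.1 i]
        · rw [Matrix.mulVec_sub, Matrix.mulVec_smul, hv, hy.2]
          simp
      have h2 := hmin _ hw hw0 (fun i hi => by
        have h3 := hyx i hi
        simp [h3, hvy i h3])
      have h3 : Finset.univ.filter (fun i => (y - t • v) i ≠ 0) ⊂
          Finset.univ.filter (fun i => y i ≠ 0) := by
        rw [Finset.ssubset_iff_of_subset]
        · refine ⟨i1, Finset.mem_filter.mpr ⟨Finset.mem_univ _, hy1.ne'⟩, ?_⟩
          rw [Finset.mem_filter]
          push Not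
          intro _
          simp only [Pi.sub_apply, Pi.smul_apply, smul_eq_mul, ht]
          field_simp
          ring
        · intro i hi
          rw [Finset.mem_filter] at hi ⊢
          refine ⟨hi.1, ?_⟩
          intro h4
          apply hi.2
          simp [h4, hvy i h4]
      exact absurd (Finset.card_lt_card h3) (not_lt.mpr h2)
  have hmul : ∀ v : Fin n → ℝ, (RM Φ).mulVec v = 0 → (∀ i, y i = 0 → v i = 0) →
      ∃ t : ℝ, v = t • y := by
    intro v hv hvy
    by_cases h1 : ∃ i, 0 < v i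
    · exact hmul0 v hv hvy h1
    · by_cases h2 : ∃ i, v i < 0
      · obtain ⟨t, ht⟩ := hmul0 (-v) (by rw [Matrix.mulVec_neg, hv, neg_zero])
          (fun i hi => by simp [hvy i hi]) (by
            obtain ⟨i, hi⟩ := h2
            exact ⟨i, by simpa using hi⟩)
        exact ⟨-t, by rw [neg_smul, ← ht, neg_neg]⟩
      · push Not at h1 h2
        refine ⟨0, ?_⟩
        funext i
        have := le_antisymm (h1 i) (h2 i)
        simp [this]
  obtain ⟨i0, hi0⟩ := Function.ne_iff.mp hy0
  have hyi0 : 0 < y i0 := lt_of_le_of_ne (hy.1 i0) (Ne.symm hi0)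
  -- an integer vector
  obtain ⟨z, hz0, hz⟩ : ∃ z : Fin n → ℤ, z ≠ 0 ∧ ∃ t : ℝ, toReal z = t • y := by
    let M : Matrix (Fin r ⊕ Fin n) (Fin n) ℤ := fun a j =>
      match a with
      | Sum.inl a => Φ a j
      | Sum.inr i => if y i = 0 ∧ i = j then 1 else 0
    have hM : (M.map (Int.cast : ℤ → ℝ)).mulVec y = 0 := by
      funext a
      rcases a with a | i
      · have := congrFun hy.2 a
        simpa [Matrix.mulVec, dotProduct, M] using this
      · simp only [Matrix.mulVec, dotProduct, Matrix.map_apply, M, Pi.zero_apply]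
        apply Finset.sum_eq_zero
        intro j _
        by_cases h : y i = 0 ∧ i = j
        · simp [h.2 ▸ h.1]
        · simp [h]
    obtain ⟨z, hz0, hz⟩ := int_kernel M y hy0 hM
    refine ⟨z, hz0, ?_⟩
    apply hmul
    · funext a
      have := congrFun hz (Sum.inl a)
      simp only [Matrix.mulVec, dotProduct, M, Pi.zero_apply] at this
      simp only [Matrix.mulVec, dotProduct, Matrix.map_apply, toReal, Pi.zero_apply]
      exact_mod_cast this
    · intro i hi
      have := congrFun hz (Sum.inr i)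
      simp only [Matrix.mulVec, dotProduct, M, Pi.zero_apply, hi, true_and, ite_mul, one_mul,
        zero_mul, Finset.sum_ite_eq, Finset.mem_univ, if_true] at this
      simp [toReal, this]
  obtain ⟨t, ht⟩ := hz
  have ht0 : t ≠ 0 := by
    rintro rfl
    apply hz0
    funext i
    have := congrFun ht i
    simp only [toReal, zero_smul, Pi.zero_apply] at this
    exact_mod_cast this
  -- the set of possible values
  let Q : ℕ → Prop := fun m => ∃ (z' : Fin n → ℤ) (t' : ℝ), 0 < t' ∧ toReal z' = t' • y ∧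
    z' i0 = m
  have hQ : ∃ m, Q m := by
    rcases lt_or_gt_of_ne ht0 with h | h
    · have h1 : toReal (-z) = (-t) • y := by
        funext i
        have := congrFun ht i
        simp only [toReal, Pi.smul_apply, smul_eq_mul, Pi.neg_apply] at this ⊢
        push_cast
        rw [this]; ring
      have h2 : 0 ≤ (-z) i0 := by
        have h3 := congrFun h1 i0
        simp only [toReal, Pi.smul_apply, smul_eq_mul] at h3
        have : (0 : ℝ) ≤ (((-z) i0 : ℤ) : ℝ) := by rw [h3]; nlinarith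
        exact_mod_cast this
      exact ⟨((-z) i0).toNat, -z, -t, by linarith, h1, (Int.toNat_of_nonneg h2).symm⟩
    · have h2 : 0 ≤ z i0 := by
        have h3 := congrFun ht i0
        simp only [toReal, Pi.smul_apply, smul_eq_mul] at h3
        have : (0 : ℝ) ≤ ((z i0 : ℤ) : ℝ) := by rw [h3]; positivity
        exact_mod_cast this
      exact ⟨(z i0).toNat, z, t, h, ht, (Int.toNat_of_nonneg h2).symm⟩
  obtain ⟨δ, s, hs, hδ, hδ0⟩ := Nat.find_spec hQ
  have hδy : ∀ i, (δ i : ℝ) = s * y i := by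
    intro i
    have := congrFun hδ i
    simpa [toReal] using this
  refine ⟨δ, ⟨?_, ?_⟩, ?_⟩
  · apply min_ext
    · rw [hδ]
      exact cone_smul Φ hy hs.le
    · rw [hδ]
      exact smul_ne_zero hs.ne' hy0
    · intro w hw hwδ
      obtain ⟨u, hu⟩ := hmul w hw.2 (fun i hi => hwδ i (by
        show (δ i : ℝ) = 0
        rw [hδy i, hi, mul_zero]))
      have hu0 : 0 ≤ u := by
        have h1 := hw.1 i0
        rw [hu] at h1
        simp only [Pi.smul_apply, smul_eq_mul] at h1
        by_contra hcon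
        push Not at hcon
        have := mul_neg_of_neg_of_pos hcon hyi0
        linarith
      refine ⟨u * s⁻¹, by positivity, ?_⟩
      rw [hδ, smul_smul, mul_assoc, inv_mul_cancel₀ hs.ne', mul_one]
      exact hu
  · intro t' ht' ⟨δ', hδ'⟩
    have h1 : toReal δ' = (t' * s) • y := by rw [hδ', hδ, smul_smul]
    have h2 : 0 ≤ δ' i0 := by
      have h3 := congrFun h1 i0
      simp only [toReal, Pi.smul_apply, smul_eq_mul] at h3
      have : (0 : ℝ) ≤ ((δ' i0 : ℤ) : ℝ) := by rw [h3]; positivity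
      exact_mod_cast this
    have h3 : Nat.find hQ ≤ (δ' i0).toNat :=
      Nat.find_min' hQ ⟨δ', t' * s, by positivity, h1, (Int.toNat_of_nonneg h2).symm⟩
    have h4 : δ i0 ≤ δ' i0 := by
      rw [hδ0]
      have := Int.toNat_of_nonneg h2
      omega
    have h5 : (δ i0 : ℝ) ≤ (δ' i0 : ℝ) := by exact_mod_cast h4
    have h6 := congrFun hδ' i0
    simp only [toReal, Pi.smul_apply, smul_eq_mul] at h6
    have h7 : 0 < (δ i0 : ℝ) := by rw [hδy i0]; positivity
    rw [h6] at h5
    by_contra hcon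
    push Not at hcon
    have := mul_lt_mul_of_pos_right hcon h7
    linarith
  · intro i hi
    have h1 := hδy i
    rw [hyx i hi, mul_zero] at h1
    exact_mod_cast h1

theorem CF_finite : (CF Φ).Finite := by
  classical
  apply Set.Finite.of_injOn (f := fun δ : Fin n → ℤ => Finset.univ.filter (fun i => δ i ≠ 0))
    (t := Set.univ) (fun _ _ => Set.mem_univ _) _ Set.finite_univ
  intro δ hδ δ' hδ' h
  have h1 : ∀ i, δ i = 0 ↔ δ' i = 0 := by
    intro i
    have : i ∈ Finset.univ.filter (fun i => δ i ≠ 0) ↔ i ∈ Finset.univ.filter (fun i => δ' i ≠ 0) := by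
      simp only at h
      rw [h]
    simp only [Finset.mem_filter, Finset.mem_univ, true_and] at this
    tauto
  obtain ⟨t, ht, h2⟩ := ext_min Φ hδ.1 hδ'.1.1 (fun i hi => by
    simp only [toReal] at hi ⊢
    have : δ i = 0 := by exact_mod_cast hi
    rw [(h1 i).mp this]; simp)
  have htpos : 0 < t := by
    rcases eq_or_lt_of_le ht with h3 | h3
    · exfalso
      apply hδ'.1.2.1
      rw [h2, ← h3, zero_smul]
    · exact h3
  have h3 := hδ.2 t htpos ⟨δ', h2⟩
  have h4 := hδ'.2 t⁻¹ (inv_pos.mpr htpos) ⟨δ, by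
    rw [h2, smul_smul, inv_mul_cancel₀ htpos.ne', one_smul]⟩
  have h5 : t = 1 := by
    apply le_antisymm _ h3
    have := (one_le_inv₀ htpos).mp h4
    exact this
  rw [h5, one_smul] at h2
  funext i
  have := congrFun h2 i
  simp only [toReal] at this
  exact_mod_cast this.symm

theorem CF_generates [Fintype (CF Φ)] (x : Fin n → ℝ) (hx : x ∈ cone Φ) :
    ∃ y : CF Φ → ℝ, (∀ j, 0 ≤ y j) ∧ ∑ j, y j • toReal j.1 = x := by
  classical
  induction hm : (Finset.univ.filter (fun i => x i ≠ 0)).card using Nat.strong_induction_on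
    generalizing x with
  | _ m ih =>
    by_cases hx0 : x = 0
    · exact ⟨0, fun j => le_rfl, by simp [hx0]⟩
    obtain ⟨δ, hδ, h1⟩ := exists_CF Φ hx hx0
    have hδ0 : ∀ i, 0 ≤ (δ i : ℝ) := hδ.1.1.1
    obtain ⟨i0, hi0⟩ := Function.ne_iff.mp hδ.1.2.1
    have hi0' : 0 < (δ i0 : ℝ) := lt_of_le_of_ne (hδ0 i0) (Ne.symm hi0)
    let S := Finset.univ.filter (fun i => 0 < (δ i : ℝ))
    have hS : S.Nonempty := ⟨i0, Finset.mem_filter.mpr ⟨Finset.mem_univ _, hi0'⟩⟩
    obtain ⟨i1, hi1, hle⟩ := Finset.exists_min_image S (fun i => x i / (δ i : ℝ)) hS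
    have hd1 : 0 < (δ i1 : ℝ) := (Finset.mem_filter.mp hi1).2
    set t := x i1 / (δ i1 : ℝ) with ht
    have hx1 : 0 < x i1 := by
      rcases eq_or_lt_of_le (hx.1 i1) with h | h
      · have := h1 i1 h.symm
        rw [this] at hd1
        simp at hd1
      · exact h
    have htpos : 0 < t := div_pos hx1 hd1
    have hw : x - t • toReal δ ∈ cone Φ := by
      constructor
      · intro i
        simp only [Pi.sub_apply, Pi.smul_apply, smul_eq_mul, toReal]
        by_cases hvi : 0 < (δ i : ℝ)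
        · have := hle i (Finset.mem_filter.mpr ⟨Finset.mem_univ _, hvi⟩)
          rw [le_div_iff₀ hvi] at this
          linarith
        · have h2 : (δ i : ℝ) = 0 := le_antisymm (not_lt.mp hvi) (hδ0 i)
          rw [h2]
          simpa using hx.1 i
      · rw [Matrix.mulVec_sub, Matrix.mulVec_smul, hδ.1.1.2, hx.2]
        simp
    have hlt : (Finset.univ.filter (fun i => (x - t • toReal δ) i ≠ 0)).card < m := by
      rw [← hm]
      apply Finset.card_lt_card
      rw [Finset.ssubset_iff_of_subset]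
      · refine ⟨i1, Finset.mem_filter.mpr ⟨Finset.mem_univ _, hx1.ne'⟩, ?_⟩
        rw [Finset.mem_filter]
        push Not
        intro _
        simp only [Pi.sub_apply, Pi.smul_apply, smul_eq_mul, ht, toReal]
        field_simp
        ring
      · intro i hi
        rw [Finset.mem_filter] at hi ⊢
        refine ⟨hi.1, ?_⟩
        intro h4
        apply hi.2
        simp [h4, h1 i h4, toReal]
    obtain ⟨y, hy0, hy⟩ := ih _ hlt _ hw rfl
    refine ⟨y + Pi.single ⟨δ, hδ⟩ t, ?_, ?_⟩
    · intro j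
      apply add_nonneg (hy0 j)
      by_cases hj : j = ⟨δ, hδ⟩
      · subst hj; simpa using htpos.le
      · simp [hj]
    · have h5 : ∑ j, (Pi.single (⟨δ, hδ⟩ : CF Φ) t : CF Φ → ℝ) j • toReal j.1 = t • toReal δ := by
        rw [Finset.sum_eq_single (⟨δ, hδ⟩ : CF Φ)]
        · simp
        · intro j _ hj
          simp [hj]
        · intro h; exact absurd (Finset.mem_univ _) h
      simp only [Pi.add_apply, add_smul, Finset.sum_add_distrib]
      rw [hy, h5]
      simp

end Pool.Agent.Q19.DB
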