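import Mathlib

/-!
# Finitely generated cones: half space description and a continuous homogeneous section
-/

open Finset

namespace Pool.Agent.Q19.DB

/-- Fourier Motzkin elimination, together with an explicit piecewise linear section. -/
theorem weyl {E : Type*} [NormedAddCommGroup E] [NormedSpace ℝ E] [FiniteDimensional ℝ E] :
    ∀ (m : ℕ) (v : Fin m → E), ∃ (T : Finset (E →ₗ[ℝ] ℝ)) (s : E → Fin m → ℝ),
      Continuous s ∧ (∀ x, (∀ ψ ∈ T, 0 ≤ ψ x) → (∀ j, 0 ≤ s x j) ∧ ∑ j, s x j • v j = x) ∧
      (∀ c : ℝ, 0 ≤ c → ∀ x, s (c • x) = c • s x) ∧ (∀ j, ∀ ψ ∈ T, 0 ≤ ψ (v j)) := by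
  classical
  intro m
  induction m with
  | zero =>
    intro v
    let b := Module.finBasis ℝ E
    refine ⟨Finset.univ.image (fun i => b.coord i) ∪ Finset.univ.image (fun i => -b.coord i),
      fun _ j => 0, continuous_const, ?_, ?_, ?_⟩
    · intro x hx
      refine ⟨fun j => le_rfl, ?_⟩
      simp only [Finset.univ_eq_empty, Finset.sum_empty]
      have h0 : ∀ i, b.coord i x = 0 := by
        intro i
        apply le_antisymm
        · have := hx (-b.coord i) (Finset.mem_union_right _ (Finset.mem_image_of_mem _ (Finset.mem_univ i)))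
          simpa using this
        · exact hx (b.coord i) (Finset.mem_union_left _ (Finset.mem_image_of_mem _ (Finset.mem_univ i)))
      symm
      apply b.ext_elem
      intro i
      simpa using h0 i
    · intro c _ x
      funext j
      exact j.elim0
    · intro j
      exact j.elim0
  | succ m ih =>
    intro v
    obtain ⟨T', s', hs'c, hs's, hs'h, hT'⟩ := ih (fun j => v j.succ)
    set u := v 0 with hu
    let Tm := T'.filter (fun ψ => ψ u < 0)
    let Tp := T'.filter (fun ψ => 0 ≤ ψ u)
    let L : Finset (E →ₗ[ℝ] ℝ) := insert 0 (Tm.image (fun ψ => (ψ u)⁻¹ • ψ))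
    have hL : L.Nonempty := ⟨0, Finset.mem_insert_self _ _⟩
    let t : E → ℝ := fun x => L.sup' hL (fun l => l x)
    have htc : Continuous t := by
      apply Continuous.finset_sup'_apply
      intro l _
      exact l.continuous_of_finiteDimensional
    have ht0 : ∀ x, 0 ≤ t x := fun x =>
      Finset.le_sup' (f := fun l : E →ₗ[ℝ] ℝ => l x) (Finset.mem_insert_self 0 _)
    have hth : ∀ c : ℝ, 0 ≤ c → ∀ x, t (c • x) = c * t x := by
      intro c hc x
      simp only [t]
      apply le_antisymm
      · apply Finset.sup'_le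
        intro l hl
        rw [map_smul, smul_eq_mul]
        exact mul_le_mul_of_nonneg_left (Finset.le_sup' (f := fun l : E →ₗ[ℝ] ℝ => l x) hl) hc
      · obtain ⟨l, hl, hle⟩ := Finset.exists_mem_eq_sup' hL (fun l : E →ₗ[ℝ] ℝ => l x)
        rw [hle]
        have := Finset.le_sup' (f := fun l : E →ₗ[ℝ] ℝ => l (c • x)) hl
        simpa using this
    let T : Finset (E →ₗ[ℝ] ℝ) := Tp ∪ (Tm ×ˢ Tp).image (fun p => p.2 u • p.1 - p.1 u • p.2)
    have key : ∀ x, (∀ ψ ∈ T, 0 ≤ ψ x) → ∀ ψ ∈ T', 0 ≤ ψ (x - t x • u) := by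
      intro x hx ψ hψ
      rw [map_sub, map_smul, smul_eq_mul, sub_nonneg]
      by_cases hneg : ψ u < 0
      · have h1 : (ψ u)⁻¹ * ψ x ≤ t x := by
          exact Finset.le_sup' (f := fun l : E →ₗ[ℝ] ℝ => l x) (s := L) (b := (ψ u)⁻¹ • ψ)
            (Finset.mem_insert_of_mem (Finset.mem_image_of_mem _
              (Finset.mem_filter.mpr ⟨hψ, hneg⟩)))
        have h2 := mul_le_mul_of_nonpos_right h1 hneg.le
        have h3 : (ψ u)⁻¹ * ψ x * ψ u = ψ x := by
          field_simp [hneg.ne]
        linarith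
      · push Not at hneg
        have hψp : ψ ∈ Tp := Finset.mem_filter.mpr ⟨hψ, hneg⟩
        obtain ⟨l, hl, hle⟩ := Finset.exists_mem_eq_sup' hL (fun l : E →ₗ[ℝ] ℝ => l x)
        have hte : t x = l x := hle
        rw [hte]
        rcases Finset.mem_insert.mp hl with rfl | hl
        · simpa using hx ψ (Finset.mem_union_left _ hψp)
        · obtain ⟨χ, hχ, rfl⟩ := Finset.mem_image.mp hl
          have hχn : χ u < 0 := (Finset.mem_filter.mp hχ).2
          have h1 := hx (ψ u • χ - χ u • ψ) (Finset.mem_union_right _ (Finset.mem_image.mpr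
            ⟨(χ, ψ), Finset.mem_product.mpr ⟨hχ, hψp⟩, rfl⟩))
          simp only [LinearMap.sub_apply, LinearMap.smul_apply, smul_eq_mul] at h1 ⊢
          have h2 : (χ u)⁻¹ * χ x * ψ u * χ u = χ x * ψ u := by
            field_simp [hχn.ne]
          by_contra hcon
          push Not at hcon
          have h3 := mul_lt_mul_of_neg_right hcon hχn
          linarith
    refine ⟨T, fun x => Fin.cons (t x) (s' (x - t x • u)), ?_, ?_, ?_, ?_⟩
    · apply continuous_pi
      intro j
      refine Fin.cases ?_ (fun i => ?_) j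
      · simpa using htc
      · simp only [Fin.cons_succ]
        exact (continuous_apply i).comp (hs'c.comp (continuous_id.sub (htc.smul continuous_const)))
    · intro x hx
      have h1 := hs's _ (key x hx)
      constructor
      · intro j
        refine Fin.cases ?_ (fun i => ?_) j
        · simpa using ht0 x
        · simpa using h1.1 i
      · rw [Fin.sum_univ_succ]
        simp only [Fin.cons_zero, Fin.cons_succ]
        rw [h1.2]
        simp [hu]
    · intro c hc x
      funext j
      refine Fin.cases ?_ (fun i => ?_) j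
      · simp [hth c hc x]
      · simp only [Fin.cons_succ, Pi.smul_apply, smul_eq_mul]
        have : c • x - t (c • x) • u = c • (x - t x • u) := by
          rw [hth c hc x, smul_sub, smul_smul]
        rw [this, hs'h c hc]
        simp
    · intro j ψ hψ
      rcases Finset.mem_union.mp hψ with hψ | hψ
      · obtain ⟨h1, h2⟩ := Finset.mem_filter.mp hψ
        refine Fin.cases ?_ (fun i => ?_) j
        · exact h2
        · exact hT' i ψ h1
      · obtain ⟨⟨χ, ρ⟩, hp, rfl⟩ := Finset.mem_image.mp hψ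
        obtain ⟨hχ, hρ⟩ := Finset.mem_product.mp hp
        obtain ⟨h1, h2⟩ := Finset.mem_filter.mp hχ
        obtain ⟨h3, h4⟩ := Finset.mem_filter.mp hρ
        simp only [LinearMap.sub_apply, LinearMap.smul_apply, smul_eq_mul] at *
        refine Fin.cases ?_ (fun i => ?_) j
        · rw [← hu]; linarith [mul_comm (ρ u) (χ u)]
        · have h5 := hT' i χ h1
          have h6 := hT' i ρ h3
          nlinarith [mul_nonneg h4 h5]

/-- The same for an arbitrary finite index type. -/
theorem weyl' {E : Type*} [NormedAddCommGroup E] [NormedSpace ℝ E] [FiniteDimensional ℝ E]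
    {ι : Type*} [Fintype ι] (v : ι → E) : ∃ (T : Finset (E →ₗ[ℝ] ℝ)) (s : E → ι → ℝ),
      Continuous s ∧ (∀ x, (∀ ψ ∈ T, 0 ≤ ψ x) → (∀ j, 0 ≤ s x j) ∧ ∑ j, s x j • v j = x) ∧
      (∀ c : ℝ, 0 ≤ c → ∀ x, s (c • x) = c • s x) ∧ (∀ j, ∀ ψ ∈ T, 0 ≤ ψ (v j)) := by
  classical
  let e := Fintype.equivFin ι
  obtain ⟨T, s, h1, h2, h3, h4⟩ := weyl (Fintype.card ι) (fun j => v (e.symm j))
  refine ⟨T, fun x i => s x (e i), ?_, ?_, ?_, ?_⟩
  · exact continuous_pi fun i => (continuous_apply (e i)).comp h1
  · intro x hx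
    obtain ⟨h5, h6⟩ := h2 x hx
    refine ⟨fun j => h5 (e j), ?_⟩
    have h7 := Equiv.sum_comp e (fun j => s x j • v (e.symm j))
    simp only [Equiv.symm_apply_apply] at h7
    rw [h7]
    exact h6
  · intro c hc x
    funext i
    simp [h3 c hc x]
  · intro j ψ hψ
    simpa using h4 (e j) ψ hψ

end Pool.Agent.Q19.DB
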