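import Mathlib

/-!
# The complexes `Δ_β` and `Γ_β` of a system of linear Diophantine equations: definitions
-/

open Set

namespace Pool.Agent.Q19.DB

/-- `E_{Φ,α}`: the nonnegative integer solutions of `Φ β = α`; `E_Φ = E_{Φ,0}`. -/
def Sol {r n : ℕ} (Φ : Matrix (Fin r) (Fin n) ℤ) (α : Fin r → ℤ) : Set (Fin n → ℤ) :=
  {β | (∀ i, 0 ≤ β i) ∧ Φ.mulVec β = α}

/-- The subgroup of `ℤ ^ n` generated by `E_Φ`. -/
def Grp {r n : ℕ} (Φ : Matrix (Fin r) (Fin n) ℤ) : AddSubgroup (Fin n → ℤ) :=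
  AddSubgroup.closure (Sol Φ 0)

/-- The coset: the group generated by `E_Φ` plus `E_{Φ,α}`. -/
def Coset {r n : ℕ} (Φ : Matrix (Fin r) (Fin n) ℤ) (α : Fin r → ℤ) : Set (Fin n → ℤ) :=
  {β | ∃ u ∈ Grp Φ, ∃ v ∈ Sol Φ α, β = u + v}

/-- The real cone of nonnegative real solutions of `Φ x = 0`. -/
def cone {r n : ℕ} (Φ : Matrix (Fin r) (Fin n) ℤ) : Set (Fin n → ℝ) :=
  {x | (∀ i, 0 ≤ x i) ∧ (Φ.map (Int.cast : ℤ → ℝ)).mulVec x = 0}

/-- An integer vector regarded as a real vector. -/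
def toReal {n : ℕ} (δ : Fin n → ℤ) : Fin n → ℝ := fun i => (δ i : ℝ)

/-- `x` spans an extreme ray of the cone. -/
def SpansExtremeRay {r n : ℕ} (Φ : Matrix (Fin r) (Fin n) ℤ) (x : Fin n → ℝ) : Prop :=
  x ∈ cone Φ ∧ x ≠ 0 ∧
    ∀ y ∈ cone Φ, ∀ z ∈ cone Φ, y + z = x → ∃ t : ℝ, 0 ≤ t ∧ y = t • x

/-- `CF_Φ`: the nonzero integer points nearest the origin on the extreme rays of the cone. -/
def CF {r n : ℕ} (Φ : Matrix (Fin r) (Fin n) ℤ) : Set (Fin n → ℤ) :=
  {δ | SpansExtremeRay Φ (toReal δ) ∧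
    ∀ t : ℝ, 0 < t → (∃ δ' : Fin n → ℤ, toReal δ' = t • toReal δ) → 1 ≤ t}

/-- The simplicial complex `Δ_β` on the vertex set `CF_Φ`: the sets `S` such that every `i` with
`β i < 0` lies in the support of some `δ ∈ CF_Φ` outside `S`. -/
def Delta {r n : ℕ} (Φ : Matrix (Fin r) (Fin n) ℤ) (β : Fin n → ℤ) : Set (Set (CF Φ)) :=
  {S | ∀ i, β i < 0 → ∃ δ : CF Φ, δ ∉ S ∧ 0 < δ.1 i}

/-- The geometric realization of a simplicial complex on a finite vertex set: the functions with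
values in `[0, ∞)`, sum one, and support in the complex. -/
def Realization {ι : Type} (L : Set (Set ι)) : Set (ι → ℝ) :=
  {z | (∀ j, 0 ≤ z j) ∧ ∑ᶠ j, z j = 1 ∧ {j | z j ≠ 0} ∈ L}

/-- `P` is a cross-section polytope of the cone: its intersection with a hyperplane which meets
the relative interior of the cone, in a bounded set. -/
def IsCrossSection {r n : ℕ} (Φ : Matrix (Fin r) (Fin n) ℤ) (P : Set (Fin n → ℝ)) : Prop :=
  ∃ (l : (Fin n → ℝ) →ₗ[ℝ] ℝ) (c : ℝ), l ≠ 0 ∧ P = cone Φ ∩ {x | l x = c} ∧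
    Bornology.IsBounded P ∧ (P ∩ intrinsicInterior ℝ (cone Φ)).Nonempty

/-- The faces of a polytope `P` (the empty face and `P` included), ordered by inclusion. -/
abbrev Face {n : ℕ} (P : Set (Fin n → ℝ)) : Type := {F : Set (Fin n → ℝ) // IsExposed ℝ P F}

/-- `Γ_β`, for a dual polytope `Q` of `P` with order reversing bijection `D` of the faces:
the union of the faces `D F` over all faces `F` of `P` such that every `i` with `β i < 0`
lies in the support of `F`. -/
def Gam {n k : ℕ} {P : Set (Fin n → ℝ)} {Q : Set (Fin k → ℝ)} (D : Face P ≃o (Face Q)ᵒᵈ)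
    (β : Fin n → ℤ) : Set (Fin k → ℝ) :=
  {y | ∃ F : Face P, (∀ i, β i < 0 → ∃ x ∈ F.1, 0 < x i) ∧ y ∈ (OrderDual.ofDual (D F)).1}

/-- The gluing relation of the (unreduced) suspension: two extra points, the bottom pole
`inr false` and the top pole `inr true`, absorb the two ends of the cylinder. -/
inductive SuspRel (X : Type) : (X × unitInterval) ⊕ Bool → (X × unitInterval) ⊕ Bool → Prop
  | bot (x : X) : SuspRel X (Sum.inl (x, 0)) (Sum.inr false)
  | top (x : X) : SuspRel X (Sum.inl (x, 1)) (Sum.inr true)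

/-- The suspension of a topological space (the suspension of the empty space is two points). -/
noncomputable def Sus (X : TopCat.{0}) : TopCat.{0} := TopCat.of (Quot (SuspRel X))

end Pool.Agent.Q19.DB
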