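import Pool.Agent.Q19.DB.Main

/-!
# Faces of the cross-section and the vertices of the dual polytope
-/

open Set ContinuousMap

namespace Pool.Agent.Q19.DB

variable {r n : ℕ} (Φ : Matrix (Fin r) (Fin n) ℤ)

/-- a boundary point has a supporting functional -/
theorem bd_functional {A : Type*} [Fintype A] {n : ℕ} (δ : A → Fin n → ℝ) (x : Fin n → ℝ)
    (hx : x ∈ Bd δ) : ∃ φ : (Fin n → ℝ) →ₗ[ℝ] ℝ, (∀ y ∈ Cn δ, 0 ≤ φ y) ∧ φ x = 0 ∧
      0 < φ (p0 δ) := by
  classical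
  obtain ⟨T, s, h1, h2, h3, h4⟩ := weyl' δ
  have hC : ∀ φ ∈ T, ∀ y ∈ Cn δ, 0 ≤ φ y := by
    rintro φ hφ y ⟨c, hc, rfl⟩
    rw [map_sum]
    apply Finset.sum_nonneg
    intro j _
    rw [map_smul, smul_eq_mul]
    exact mul_nonneg (hc j) (h4 j φ hφ)
  have hp0 : p0 δ ∈ Cn δ := ⟨fun _ => 1, fun _ => zero_le_one, by simp [p0]⟩
  by_contra hcon
  push Not at hcon
  have hev : ∀ φ ∈ T, ∀ᶠ ε in nhdsWithin (0 : ℝ) (Set.Ioi 0), 0 ≤ φ (x - ε • p0 δ) := by
    intro φ hφ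
    have h5 := hC φ hφ x hx.1
    rcases eq_or_lt_of_le h5 with h6 | h6
    · have h7 := hcon φ (hC φ hφ) h6.symm
      refine Filter.Eventually.of_forall fun ε => ?_
      have h8 : φ (p0 δ) = 0 := le_antisymm h7 (hC φ hφ _ hp0)
      rw [map_sub, map_smul, h8, ← h6]
      simp
    · have h7 : Filter.Tendsto (fun ε : ℝ => φ (x - ε • p0 δ)) (nhdsWithin (0 : ℝ) (Set.Ioi 0))
          (nhds (φ (x - (0 : ℝ) • p0 δ))) := by
        have : Continuous (fun ε : ℝ => φ (x - ε • p0 δ)) :=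
          φ.continuous_of_finiteDimensional.comp
            (continuous_const.sub (continuous_id.smul continuous_const))
        exact (this.tendsto 0).mono_left nhdsWithin_le_nhds
      rw [zero_smul, sub_zero] at h7
      filter_upwards [h7.eventually (Ioi_mem_nhds h6)] with ε hε
      exact le_of_lt hε
  have hall : ∀ᶠ ε in nhdsWithin (0 : ℝ) (Set.Ioi 0), ∀ φ ∈ T, 0 ≤ φ (x - ε • p0 δ) :=
    (Filter.eventually_all_finset T).mpr hev
  obtain ⟨ε, h5, h6⟩ := (hall.and self_mem_nhdsWithin).exists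
  exact hx.2 ε h6 ⟨s _, (h2 _ h5).1, (h2 _ h5).2⟩

section

variable {g : (Fin n → ℝ) →ₗ[ℝ] ℝ} (hg : ∀ x ∈ cone Φ, x ≠ 0 → 0 < g x) {P : Set (Fin n → ℝ)}
  (hP : P = cone Φ ∩ {x | g x = 1})

include hg hP

theorem scale_mem {x : Fin n → ℝ} (hx : x ∈ cone Φ) (hx0 : x ≠ 0) : (g x)⁻¹ • x ∈ P := by
  have h := hg x hx hx0
  rw [hP]
  refine ⟨cone_smul Φ hx (inv_pos.mpr h).le, ?_⟩
  show g ((g x)⁻¹ • x) = 1
  rw [map_smul, smul_eq_mul, inv_mul_cancel₀ h.ne']

theorem exists_psi (F : Face P) : ∃ φ : (Fin n → ℝ) →ₗ[ℝ] ℝ, (∀ x ∈ cone Φ, 0 ≤ φ x) ∧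
    ∀ x ∈ P, (φ x = 0 ↔ x ∈ F.1) := by
  have hlin : ∀ φ : (Fin n → ℝ) →ₗ[ℝ] ℝ, (∀ x ∈ P, 0 ≤ φ x) → ∀ x ∈ cone Φ, 0 ≤ φ x := by
    intro φ hφ x hx
    by_cases hx0 : x = 0
    · rw [hx0, map_zero]
    · have h1 := hφ _ (scale_mem Φ hg hP hx hx0)
      rw [map_smul, smul_eq_mul] at h1
      have h2 := hg x hx hx0
      by_contra hcon
      push Not at hcon
      have := mul_neg_of_pos_of_neg (inv_pos.mpr h2) hcon
      linarith
  have hg1 : ∀ x ∈ P, g x = 1 := by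
    intro x hx
    rw [hP] at hx
    exact hx.2
  by_cases hF : F.1.Nonempty
  · obtain ⟨l, hl⟩ := F.2 hF
    obtain ⟨x1, hx1⟩ := hF
    have hx1' := hx1
    rw [hl] at hx1'
    let φ : (Fin n → ℝ) →ₗ[ℝ] ℝ := (l x1) • g - (l : (Fin n → ℝ) →ₗ[ℝ] ℝ)
    have hφ : ∀ x ∈ P, φ x = l x1 - l x := by
      intro x hx
      simp [φ, hg1 x hx]
    refine ⟨φ, hlin φ ?_, ?_⟩
    · intro x hx
      rw [hφ x hx]
      have := hx1'.2 x hx
      linarith
    · intro x hx
      rw [hφ x hx, hl]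
      constructor
      · intro h
        refine ⟨hx, ?_⟩
        intro y hy
        have := hx1'.2 y hy
        linarith
      · rintro ⟨_, h⟩
        have h1 := h x1 hx1'.1
        have h2 := hx1'.2 x hx
        linarith
  · refine ⟨g, ?_, ?_⟩
    · intro x hx
      by_cases hx0 : x = 0
      · rw [hx0, map_zero]
      · exact (hg x hx hx0).le
    · intro x hx
      rw [hg1 x hx]
      constructor
      · intro h; norm_num at h
      · intro h; exact absurd ⟨x, h⟩ hF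

end

variable {k : ℕ} {P : Set (Fin n → ℝ)} {Q : Set (Fin k → ℝ)} (D : Face P ≃o (Face Q)ᵒᵈ)

/-- the face of `Q` attached to a face of `P` -/
def dF (F : Face P) : Set (Fin k → ℝ) := (OrderDual.ofDual (D F)).1

theorem dF_anti {F F' : Face P} : F.1 ⊆ F'.1 ↔ dF D F' ⊆ dF D F := by
  have h1 : F ≤ F' ↔ D F ≤ D F' := D.le_iff_le.symm
  exact h1

theorem dF_exposed (F : Face P) : IsExposed ℝ Q (dF D F) := (OrderDual.ofDual (D F)).2

theorem dF_surj (H : Set (Fin k → ℝ)) (hH : IsExposed ℝ Q H) : ∃ F : Face P, dF D F = H := by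
  refine ⟨D.symm (OrderDual.toDual ⟨H, hH⟩), ?_⟩
  simp [dF]

/-- the top face of `P` is mapped to the empty face -/
theorem dF_top (F : Face P) (hF : F.1 = P) : dF D F = ∅ := by
  obtain ⟨F', hF'⟩ := dF_surj D ∅ isExposed_empty
  have h1 : F'.1 ⊆ F.1 := by rw [hF]; exact F'.2.subset
  have h2 := (dF_anti D).mp h1
  rw [hF'] at h2
  exact Set.subset_empty_iff.mp h2

theorem dF_bot (F : Face P) (hF : F.1 = ∅) : dF D F = Q := by
  obtain ⟨F', hF'⟩ := dF_surj D Q (IsExposed.refl Q)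
  have h1 : F.1 ⊆ F'.1 := by rw [hF]; exact Set.empty_subset _
  have h2 := (dF_anti D).mp h1
  rw [hF'] at h2
  exact le_antisymm (dF_exposed D F).subset h2

theorem dF_inj {F F' : Face P} (h : dF D F = dF D F') : F.1 = F'.1 :=
  le_antisymm ((dF_anti D).mpr h.ge) ((dF_anti D).mpr h.le)

/-- intersection of finitely many faces -/
theorem face_inter {V : Type*} (Fv : V → Face P) (B : Finset V) :
    IsExposed ℝ P (P ∩ ⋂ w ∈ B, (Fv w).1) := by
  classical
  induction B using Finset.induction_on with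
  | empty =>
    simp only [Finset.notMem_empty, Set.iInter_of_empty, Set.iInter_univ, Set.inter_univ]
    exact IsExposed.refl P
  | insert w B hw ih =>
    have h1 : P ∩ ⋂ w' ∈ insert w B, (Fv w').1 = (P ∩ ⋂ w' ∈ B, (Fv w').1) ∩ (Fv w).1 := by
      rw [Finset.set_biInter_insert]
      ext x
      simp only [Set.mem_inter_iff]
      tauto
    rw [h1]
    exact ih.inter (Fv w).2

end Pool.Agent.Q19.DB
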