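import Pool.Agent.Q19.DB.Faces

/-!
# The main theorem on `Δ_β` and `Γ_β`
-/

open Set ContinuousMap

namespace Pool.Agent.Q19.DB

variable {r n : ℕ} (Φ : Matrix (Fin r) (Fin n) ℤ)

theorem adm_of_point {A V : Type*} [Fintype A] (δ : A → Fin n → ℝ)
    (hδ : ∀ j i, 0 ≤ δ j i) (ψ : V → (Fin n → ℝ) →ₗ[ℝ] ℝ) (hψ : ∀ w j, 0 ≤ ψ w (δ j))
    (x : Fin n → ℝ) (hx : x ∈ Cn δ) (i : Fin n) (hi : 0 < x i) :
    ∃ j, 0 < δ j i ∧ ∀ w, ψ w x = 0 → ψ w (δ j) = 0 := by
  obtain ⟨y, hy, rfl⟩ := hx
  simp only [Finset.sum_apply, Pi.smul_apply, smul_eq_mul] at hi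
  obtain ⟨j, _, hj⟩ := Finset.exists_lt_of_sum_lt (s := Finset.univ) (f := fun _ => (0 : ℝ))
    (g := fun j => y j * δ j i) (by simpa using hi)
  have hyj : 0 < y j := by
    rcases eq_or_lt_of_le (hy j) with h | h
    · rw [← h] at hj; simp at hj
    · exact h
  have hδj : 0 < δ j i := by
    rcases eq_or_lt_of_le (hδ j i) with h | h
    · rw [← h] at hj; simp at hj
    · exact h
  refine ⟨j, hδj, ?_⟩
  intro w h2
  rw [map_sum, Finset.sum_eq_zero_iff_of_nonneg] at h2
  · have h3 := h2 j (Finset.mem_univ j)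
    rw [map_smul, smul_eq_mul] at h3
    rcases mul_eq_zero.mp h3 with h4 | h4
    · exact absurd h4 hyj.ne'
    · exact h4
  · intro j _
    rw [map_smul, smul_eq_mul]
    exact mul_nonneg (hy j) (hψ w j)

theorem star_heq {E : Type*} [AddCommGroup E] [Module ℝ E] [TopologicalSpace E]
    [IsTopologicalAddGroup E] [ContinuousSMul ℝ E] (S : Set E) (x0 : E) (hx0 : x0 ∈ S)
    (h : ∀ x ∈ S, ∀ s : ℝ, 0 ≤ s → s ≤ 1 → (1 - s) • x + s • x0 ∈ S) :
    Nonempty (S ≃ₕ ({0} : Set ℝ)) := by
  apply heq_of (fun _ => (0 : ℝ)) (fun _ => x0) continuousOn_const continuousOn_const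
  · intro _ _; exact rfl
  · intro _ _; exact hx0
  · exact h
  · intro y hy s _ _
    rw [Set.mem_singleton_iff.mp hy]
    simp

/-- The realization is the normalised cone. -/
theorem real_heq [Fintype (CF Φ)] (β : Fin n → ℤ) :
    Nonempty (Realization (Delta Φ β) ≃ₕ
      Kh (gen Φ) (Finset.univ.filter (fun i => β i < 0))) := by
  have h1 : Realization (Delta Φ β) =
      {z | z ∈ Kh (gen Φ) (Finset.univ.filter (fun i => β i < 0)) ∧ ∑ j, z j = 1} := by
    ext z
    constructor
    · rintro ⟨h1, h2, h3⟩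
      rw [finsum_eq_sum_of_fintype] at h2
      refine ⟨⟨h1, ?_, ?_⟩, h2⟩
      · by_contra hcon
        push Not at hcon
        rw [Finset.sum_eq_zero (fun j _ => hcon j)] at h2
        norm_num at h2
      · intro i hi
        obtain ⟨j, h4, h5⟩ := h3 i (Finset.mem_filter.mp hi).2
        refine ⟨j, ?_, ?_⟩
        · simpa using h4
        · simp only [gen, toReal]
          exact_mod_cast h5
    · rintro ⟨⟨h1, h2, h3⟩, h4⟩
      refine ⟨h1, ?_, ?_⟩
      · rw [finsum_eq_sum_of_fintype]; exact h4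
      · intro i hi
        obtain ⟨j, h5, h6⟩ := h3 i (Finset.mem_filter.mpr ⟨Finset.mem_univ _, hi⟩)
        refine ⟨j, ?_, ?_⟩
        · simpa using h5
        · simp only [gen, toReal] at h6
          exact_mod_cast h6
  rw [h1]
  apply normalize (Kh (gen Φ) (Finset.univ.filter (fun i => β i < 0))) (fun z => ∑ j, z j)
  · exact (continuous_finset_sum _ fun j _ => continuous_apply j).continuousOn
  · rintro z ⟨h2, ⟨j, h3⟩, _⟩
    have : 0 < z j := lt_of_le_of_ne (h2 j) (Ne.symm h3)
    exact lt_of_lt_of_le this (Finset.single_le_sum (fun j _ => h2 j) (Finset.mem_univ j))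
  · rintro z ⟨h2, ⟨j, h3⟩, h4⟩ c hc
    refine ⟨fun j => mul_nonneg hc.le (h2 j), ⟨j, mul_ne_zero hc.ne' h3⟩, ?_⟩
    intro i hi
    obtain ⟨j, h5, h6⟩ := h4 i hi
    exact ⟨j, by simp [h5], h6⟩
  · intro z _ c _
    simp [Finset.mul_sum]

/-- Case of an empty negative support. -/
theorem mid_empty {k : ℕ} (hC : cone Φ ≠ {0}) [Fintype (CF Φ)] (Γ : Set (Fin k → ℝ))
    (hΓ : Convex ℝ Γ) (hne : Γ.Nonempty) :
    Nonempty (Kh (gen Φ) ∅ ≃ₕ Jn (Gh Γ) (K (gen Φ))) := by
  obtain ⟨j0⟩ := CF_nonempty Φ hC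
  obtain ⟨y0, hy0⟩ := hne
  have h1 : Nonempty (Kh (gen Φ) ∅ ≃ₕ ({0} : Set ℝ)) := by
    apply star_heq _ (fun _ => (1 : ℝ))
    · exact ⟨fun _ => zero_le_one, ⟨j0, one_ne_zero⟩, fun i hi => absurd hi (Finset.notMem_empty i)⟩
    · rintro z ⟨h2, ⟨j, h3⟩, _⟩ s h0 hs1
      refine ⟨?_, ⟨j, ?_⟩, fun i hi => absurd hi (Finset.notMem_empty i)⟩
      · intro j
        simp only [Pi.add_apply, Pi.smul_apply, smul_eq_mul, mul_one]
        have := mul_nonneg (show 0 ≤ 1 - s by linarith) (h2 j)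
        linarith
      · simp only [Pi.add_apply, Pi.smul_apply, smul_eq_mul, mul_one]
        have h4 : 0 < z j := lt_of_le_of_ne (h2 j) (Ne.symm h3)
        rcases eq_or_lt_of_le h0 with h | h
        · rw [← h]; simpa using h3
        · have := mul_nonneg (show 0 ≤ 1 - s by linarith) (h2 j)
          linarith
  have h2 : Nonempty (Jn (Gh Γ) (K (gen Φ)) ≃ₕ ({0} : Set ℝ)) := by
    have hK0 : (0 : CF Φ → ℝ) ∈ K (gen Φ) := by simp [K]
    apply star_heq _ (((y0, (1 : ℝ)), (0 : CF Φ → ℝ)) : ((Fin k → ℝ) × ℝ) × (CF Φ → ℝ))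
    · refine Or.inl ⟨⟨one_pos, ?_⟩, hK0⟩
      simpa using hy0
    · intro p hp s h0 hs1
      have hKp : p.2 ∈ K (gen Φ) := by
        rcases hp with ⟨_, h⟩ | ⟨_, h, _⟩
        · exact h
        · exact h
      have hK1 : (1 - s) • p.2 + s • (0 : CF Φ → ℝ) ∈ K (gen Φ) := by
        have h3 : ∑ j, p.2 j • gen Φ j = 0 := hKp
        show ∑ j, ((1 - s) • p.2 + s • (0 : CF Φ → ℝ)) j • gen Φ j = 0
        simp only [smul_zero, add_zero, Pi.smul_apply, smul_eq_mul, mul_smul]
        rw [← Finset.smul_sum, h3, smul_zero]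
      rcases eq_or_lt_of_le h0 with h | h
      · rw [← h]; simpa using hp
      left
      refine ⟨?_, hK1⟩
      rcases hp with ⟨⟨h4, h5⟩, _⟩ | ⟨h4, _⟩
      · have h6 : 0 < (1 - s) * p.1.2 + s * 1 := by
          have := mul_nonneg (show 0 ≤ 1 - s by linarith) h4.le
          linarith
        refine ⟨h6, ?_⟩
        have h7 := hΓ h5 hy0 (a := ((1 - s) * p.1.2) / ((1 - s) * p.1.2 + s * 1))
          (b := s / ((1 - s) * p.1.2 + s * 1))
          (div_nonneg (mul_nonneg (by linarith) h4.le) h6.le) (div_nonneg h0 h6.le)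
          (by rw [← add_div]; rw [show (1 - s) * p.1.2 + s = (1 - s) * p.1.2 + s * 1 by ring]
              exact div_self h6.ne')
        have h8 : ((1 - s) • p + s • (((y0, (1 : ℝ)), (0 : CF Φ → ℝ)) :
            ((Fin k → ℝ) × ℝ) × (CF Φ → ℝ))).1.2⁻¹ •
            ((1 - s) • p + s • (((y0, (1 : ℝ)), (0 : CF Φ → ℝ)) :
            ((Fin k → ℝ) × ℝ) × (CF Φ → ℝ))).1.1 =
            (((1 - s) * p.1.2) / ((1 - s) * p.1.2 + s * 1)) • p.1.2⁻¹ • p.1.1 +
            (s / ((1 - s) * p.1.2 + s * 1)) • y0 := by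
          simp only [Prod.fst_add, Prod.snd_add, Prod.smul_fst, Prod.smul_snd, smul_eq_mul,
            smul_add, smul_smul]
          have := h4.ne'
          congr 1
          · congr 1
            field_simp
          · congr 1
            field_simp
        rw [h8]
        exact h7
      · refine ⟨?_, ?_⟩
        · simp only [Prod.fst_add, Prod.snd_add, Prod.smul_fst, Prod.smul_snd, smul_eq_mul, h4]
          simpa using h
        · have h8 : ((1 - s) • p + s • (((y0, (1 : ℝ)), (0 : CF Φ → ℝ)) :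
            ((Fin k → ℝ) × ℝ) × (CF Φ → ℝ))).1.2⁻¹ •
            ((1 - s) • p + s • (((y0, (1 : ℝ)), (0 : CF Φ → ℝ)) :
            ((Fin k → ℝ) × ℝ) × (CF Φ → ℝ))).1.1 = y0 := by
            simp only [Prod.fst_add, Prod.snd_add, Prod.smul_fst, Prod.smul_snd, smul_eq_mul, h4,
              Prod.fst_zero, Prod.snd_zero, mul_zero, smul_zero, zero_add, mul_one, smul_smul]
            rw [inv_mul_cancel₀ h.ne', one_smul]
          rw [h8]
          exact hy0
  exact heq_trans h1 (heq_symm h2)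

/-- Case of a nonempty negative support. -/
theorem mid_nonempty {k : ℕ} (hC : cone Φ ≠ {0}) [Fintype (CF Φ)] {P : Set (Fin n → ℝ)}
    {g : (Fin n → ℝ) →ₗ[ℝ] ℝ} (hg : ∀ x ∈ cone Φ, x ≠ 0 → 0 < g x)
    (hP : P = cone Φ ∩ {x | g x = 1}) (S : Finset (Fin k → ℝ)) (Q : Set (Fin k → ℝ))
    (hQ : Q = convexHull ℝ (S : Set (Fin k → ℝ)))
    (D : Face P ≃o (Face Q)ᵒᵈ) (β : Fin n → ℤ)
    (N : Finset (Fin n)) (hNe : ∀ i, i ∈ N ↔ β i < 0) (hN : N.Nonempty)
    (hNc : ∀ i ∈ N, ∃ j : CF Φ, 0 < gen Φ j i) :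
    Nonempty (Kh (gen Φ) N ≃ₕ Jn (Gh (Gam D β)) (K (gen Φ))) ∧ IsCompact (Gam D β) := by
  classical
  have hQc : IsCompact Q := by rw [hQ]; exact poly_compact S
  have hQcv : Convex ℝ Q := by rw [hQ]; exact convex_convexHull ℝ _
  have hQeq : convexHull ℝ (Q.extremePoints ℝ) = Q := by rw [hQ]; exact poly_eq S
  have hQex : ∀ w ∈ Q.extremePoints ℝ, IsExposed ℝ Q {w} := by rw [hQ]; exact poly_exposed S
  have hfin : (Q.extremePoints ℝ).Finite := by rw [hQ]; exact poly_ext_finite S
  have : Nonempty (CF Φ) := CF_nonempty Φ hC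
  have hδ : ∀ (j : CF Φ) i, 0 ≤ gen Φ j i := fun j i => j.2.1.1.1 i
  have hδ0 : ∀ j : CF Φ, gen Φ j ≠ 0 := fun j => j.2.1.2.1
  have hδC : ∀ j : CF Φ, gen Φ j ∈ cone Φ := fun j => j.2.1.1
  have hCn := Cn_eq Φ
  have hg1 : ∀ x ∈ P, g x = 1 := by
    intro x hx
    rw [hP] at hx
    exact hx.2
  have hPC : ∀ x ∈ P, x ∈ cone Φ := by
    intro x hx
    rw [hP] at hx
    exact hx.1
  have : Fintype (Q.extremePoints ℝ) := hfin.fintype
  choose Fv hFv using fun w : Q.extremePoints ℝ => dF_surj D {w.1} (hQex w.1 w.2)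
  choose ψ hψ1 hψ2 using fun w : Q.extremePoints ℝ => exists_psi Φ hg hP (Fv w)
  have hψδ : ∀ w j, 0 ≤ ψ w (gen Φ j) := fun w j => hψ1 w _ (hδC j)
  -- vanishing at points of the cone
  have hzero : ∀ w, ∀ x ∈ cone Φ, x ≠ 0 → (ψ w x = 0 ↔ (g x)⁻¹ • x ∈ (Fv w).1) := by
    intro w x hx hx0
    rw [← hψ2 w _ (scale_mem Φ hg hP hx hx0), map_smul, smul_eq_mul]
    have h1 := hg x hx hx0
    constructor
    · intro h; rw [h, mul_zero]
    · intro h
      rcases mul_eq_zero.mp h with h2 | h2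
      · exact absurd h2 (inv_pos.mpr h1).ne'
      · exact h2
  have hincl : ∀ (F : Face P) (w : Q.extremePoints ℝ), w.1 ∈ dF D F ↔ F.1 ⊆ (Fv w).1 := by
    intro F w
    rw [dF_anti D, hFv w, Set.singleton_subset_iff]
  have hQne : Q.Nonempty := by
    by_contra hcon
    rw [Set.not_nonempty_iff_eq_empty] at hcon
    obtain ⟨x, hx, hx0⟩ := cone_ne Φ hC
    have h1 := scale_mem Φ hg hP hx hx0
    have h2 : dF D ⟨∅, isExposed_empty⟩ = Q := dF_bot D _ rfl
    have h3 : dF D ⟨P, IsExposed.refl P⟩ = ∅ := dF_top D _ rfl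
    have h4 : (∅ : Set (Fin n → ℝ)) = P := dF_inj D (F := ⟨∅, isExposed_empty⟩)
      (F' := ⟨P, IsExposed.refl P⟩) ((h2.trans hcon).trans h3.symm)
    exact (h4.symm ▸ h1 : _ ∈ (∅ : Set (Fin n → ℝ)))
  have hVne : Nonempty (Q.extremePoints ℝ) := by
    obtain ⟨w, hw⟩ := hQc.extremePoints_nonempty hQne
    exact ⟨⟨w, hw⟩⟩
  -- positivity at the centre
  have hp0ψ : ∀ w, 0 < ψ w (p0 (gen Φ)) := by
    intro w
    have h1 : ψ w (p0 (gen Φ)) = ∑ j, ψ w (gen Φ j) := by simp [p0, map_sum]
    apply lt_of_le_of_ne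
    · rw [h1]; exact Finset.sum_nonneg fun j _ => hψδ w j
    · intro h
      rw [h1] at h
      have h2 := (Finset.sum_eq_zero_iff_of_nonneg (fun j _ => hψδ w j)).mp h.symm
      have h3 : (Fv w).1 = P := by
        apply le_antisymm (Fv w).2.subset
        intro x hx
        rw [← hψ2 w x hx]
        obtain ⟨y, _, rfl⟩ := CF_generates Φ x (hPC x hx)
        rw [map_sum]
        apply Finset.sum_eq_zero
        intro j hj
        rw [map_smul]
        have := h2 j hj
        simp only [gen] at this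
        rw [this, smul_zero]
      have h4 := dF_top D (Fv w) h3
      rw [hFv w] at h4
      exact Set.singleton_ne_empty _ h4
  -- finite intersections of faces
  let FB : Finset (Q.extremePoints ℝ) → Face P := fun B => ⟨_, face_inter Fv B⟩
  have hFBw : ∀ B, ∀ w ∈ B, w.1 ∈ dF D (FB B) := by
    intro B w hw
    rw [hincl]
    intro x hx
    have h1 := hx.2
    simp only [Set.mem_iInter] at h1
    exact h1 w hw
  have hFBx : ∀ B j, (∀ w ∈ B, ψ w (gen Φ j) = 0) → (g (gen Φ j))⁻¹ • gen Φ j ∈ (FB B).1 := by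
    intro B j h
    refine ⟨scale_mem Φ hg hP (hδC j) (hδ0 j), ?_⟩
    simp only [Set.mem_iInter]
    intro w hw
    exact (hzero w _ (hδC j) (hδ0 j)).mp (h w hw)
  have hbd : ∀ x ∈ Cn (gen Φ), x ∈ Bd (gen Φ) ↔ ∃ w, ψ w x = 0 := by
    intro x hx
    have hxC : x ∈ cone Φ := by rw [← hCn]; exact hx
    constructor
    · intro hxB
      by_cases hx0 : x = 0
      · obtain ⟨w⟩ := hVne
        exact ⟨w, by rw [hx0, map_zero]⟩
      obtain ⟨φ, h1, h2, h3⟩ := bd_functional (gen Φ) x hxB
      let Fs : Set (Fin n → ℝ) := {y | y ∈ P ∧ φ y = 0}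
      have hFs : IsExposed ℝ P Fs := by
        rintro ⟨z, hz⟩
        refine ⟨⟨-φ, ?_⟩, ?_⟩
        · exact (-φ).continuous_of_finiteDimensional
        · ext y
          constructor
          · rintro ⟨hy1, hy2⟩
            refine ⟨hy1, ?_⟩
            intro u hu
            show (-φ) u ≤ (-φ) y
            simp only [LinearMap.neg_apply, hy2, neg_zero]
            have := h1 u (by rw [hCn]; exact hPC u hu)
            linarith
          · rintro ⟨hy1, hy2⟩
            refine ⟨hy1, ?_⟩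
            have h4 : (-φ) z ≤ (-φ) y := hy2 z hz.1
            simp only [LinearMap.neg_apply, hz.2, neg_zero] at h4
            have := h1 y (by rw [hCn]; exact hPC y hy1)
            linarith
      have hne : dF D ⟨Fs, hFs⟩ ≠ ∅ := by
        intro h
        have h3' : dF D ⟨P, IsExposed.refl P⟩ = ∅ := dF_top D _ rfl
        have h4 : Fs = P := dF_inj D (F := ⟨Fs, hFs⟩) (F' := ⟨P, IsExposed.refl P⟩)
          (h.trans h3'.symm)
        have hpC : p0 (gen Φ) ∈ cone Φ := by
          rw [← hCn]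
          exact ⟨fun _ => 1, fun _ => zero_le_one, by simp [p0]⟩
        have hp00 : p0 (gen Φ) ≠ 0 := by
          intro h5
          rw [h5, map_zero] at h3
          exact lt_irrefl _ h3
        have h5 : (g (p0 (gen Φ)))⁻¹ • p0 (gen Φ) ∈ Fs := h4.ge (scale_mem Φ hg hP hpC hp00)
        have h6 := h5.2
        rw [map_smul, smul_eq_mul] at h6
        have := mul_pos (inv_pos.mpr (hg _ hpC hp00)) h3
        linarith
      have hcomp : IsCompact (dF D ⟨Fs, hFs⟩) := (dF_exposed D _).isCompact hQc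
      obtain ⟨w, hw⟩ := hcomp.extremePoints_nonempty (Set.nonempty_iff_ne_empty.mpr hne)
      have hwQ : w ∈ Q.extremePoints ℝ :=
        (dF_exposed D _).isExtreme.extremePoints_subset_extremePoints hw
      refine ⟨⟨w, hwQ⟩, ?_⟩
      have h4 : Fs ⊆ (Fv ⟨w, hwQ⟩).1 := (hincl ⟨Fs, hFs⟩ ⟨w, hwQ⟩).mp hw.1
      rw [hzero _ x hxC hx0]
      apply h4
      refine ⟨scale_mem Φ hg hP hxC hx0, ?_⟩
      rw [map_smul, h2, smul_zero]
    · rintro ⟨w, hw⟩
      refine ⟨hx, ?_⟩
      intro ε hε h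
      rw [hCn] at h
      have h1 := hψ1 w _ h
      rw [map_sub, map_smul, hw, smul_eq_mul] at h1
      have := mul_pos hε (hp0ψ w)
      linarith
  have hcA : ¬ Adm (gen Φ) N ψ Finset.univ := by
    intro h
    obtain ⟨i, hi⟩ := hN
    obtain ⟨j, h1, h2⟩ := h i hi
    have h3 := hFBx Finset.univ j h1
    have h4 : Q ⊆ dF D (FB Finset.univ) := by
      have h5 : convexHull ℝ (Q.extremePoints ℝ) ⊆ dF D (FB Finset.univ) := by
        apply convexHull_min
        · intro w hw
          exact hFBw Finset.univ ⟨w, hw⟩ (Finset.mem_univ _)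
        · exact (dF_exposed D _).convex hQcv
      exact hQeq.ge.trans h5
    have h5 : dF D (FB Finset.univ) = Q := le_antisymm (dF_exposed D _).subset h4
    have h6 : dF D ⟨∅, isExposed_empty⟩ = Q := dF_bot D _ rfl
    have h7 : (FB Finset.univ).1 = ∅ := dF_inj D (h5.trans h6.symm)
    exact h7.le h3
  have hGQ : Gam D β ⊆ Q := by
    rintro y ⟨F, _, hy⟩
    exact (dF_exposed D F).subset hy
  have hΓ : ∀ y ∈ Gam D β, ∃ c : Q.extremePoints ℝ → ℝ, (∀ w, 0 ≤ c w) ∧ ∑ w, c w = 1 ∧
      ∑ w, c w • w.1 = y := by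
    intro y hy
    apply mem_hull_fintype (Q.extremePoints ℝ) y
    exact hQeq.ge (hGQ hy)
  have star : ∀ c : Q.extremePoints ℝ → ℝ, (∀ w, 0 ≤ c w) → c ≠ 0 →
      ((∑ w, c w)⁻¹ • ∑ w, c w • w.1 ∈ Gam D β ↔
        ∀ i ∈ N, ∃ j, (∀ w, 0 < c w → ψ w (gen Φ j) = 0) ∧ 0 < gen Φ j i) := by
    intro c hc hc0
    have hσ : 0 < ∑ w, c w := by
      obtain ⟨w, hw⟩ := Function.ne_iff.mp hc0
      have : 0 < c w := lt_of_le_of_ne (hc w) (Ne.symm hw)
      exact lt_of_lt_of_le this (Finset.single_le_sum (fun w _ => hc w) (Finset.mem_univ w))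
    set σ := ∑ w, c w with hσd
    constructor
    · rintro ⟨F, hF, hy⟩ i hi
      have hy' : σ⁻¹ • ∑ w, c w • w.1 ∈ dF D F := hy
      have h1 : ∀ w, 0 < c w → w.1 ∈ dF D F := by
        intro w hw
        obtain ⟨l, hl⟩ := dF_exposed D F ⟨_, hy'⟩
        rw [hl] at hy'
        rw [hl]
        have h2 : ∀ w' : Q.extremePoints ℝ, l w'.1 ≤ l (σ⁻¹ • ∑ w, c w • w.1) :=
          fun w' => hy'.2 _ w'.2.1
        set y := σ⁻¹ • ∑ w, c w • w.1 with hyd
        have h3 : ∑ w, c w * (l y - l w.1) = 0 := by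
          simp only [mul_sub, Finset.sum_sub_distrib]
          rw [← Finset.sum_mul, ← hσd]
          have h4 : l y = σ⁻¹ * ∑ w, c w * l w.1 := by
            rw [hyd, map_smul, map_sum]
            simp [smul_eq_mul]
          rw [h4, ← mul_assoc, mul_inv_cancel₀ hσ.ne', one_mul, sub_self]
        rw [Finset.sum_eq_zero_iff_of_nonneg
          (fun w _ => mul_nonneg (hc w) (by linarith [h2 w]))] at h3
        have h4 := h3 w (Finset.mem_univ w)
        have h5 : l y = l w.1 := by
          rcases mul_eq_zero.mp h4 with h6 | h6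
          · exact absurd h6 hw.ne'
          · linarith
        refine ⟨w.2.1, ?_⟩
        intro z hz
        rw [← h5]
        exact hy'.2 z hz
      obtain ⟨x, hx, hxi⟩ := hF i ((hNe i).mp hi)
      have hxP : x ∈ P := F.2.subset hx
      obtain ⟨j, h2, h3⟩ := adm_of_point (gen Φ) hδ ψ hψδ x (by rw [hCn]; exact hPC x hxP) i hxi
      refine ⟨j, ?_, h2⟩
      intro w hw
      apply h3
      rw [hψ2 w x hxP]
      exact (hincl F w).mp (h1 w hw) hx
    · intro h
      let B := Finset.univ.filter (fun w => 0 < c w)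
      refine ⟨FB B, ?_, ?_⟩
      · intro i hi
        obtain ⟨j, h1, h2⟩ := h i ((hNe i).mpr hi)
        refine ⟨_, hFBx B j (fun w hw => h1 w (Finset.mem_filter.mp hw).2), ?_⟩
        simp only [Pi.smul_apply, smul_eq_mul]
        exact mul_pos (inv_pos.mpr (hg _ (hδC j) (hδ0 j))) h2
      · have hconv : Convex ℝ (dF D (FB B)) := (dF_exposed D _).convex hQcv
        have h3 : ∀ w ∉ B, c w = 0 := by
          intro w hw
          rw [Finset.mem_filter] at hw
          push Not at hw
          exact le_antisymm (hw (Finset.mem_univ w)) (hc w)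
        have h4 : ∑ w ∈ B, c w = σ := by
          rw [hσd]
          exact Finset.sum_subset (Finset.subset_univ B) (fun w _ hw => h3 w hw)
        have h5 : ∑ w ∈ B, c w • w.1 = ∑ w, c w • w.1 :=
          Finset.sum_subset (Finset.subset_univ B) (fun w _ hw => by rw [h3 w hw, zero_smul])
        have h6 := hconv.sum_mem (t := B) (w := fun w => σ⁻¹ * c w) (z := fun w => w.1)
          (fun w _ => mul_nonneg (inv_pos.mpr hσ).le (hc w))
          (by rw [← Finset.mul_sum, h4, inv_mul_cancel₀ hσ.ne'])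
          (fun w hw => hFBw B w hw)
        have h7 : ∑ w ∈ B, (σ⁻¹ * c w) • w.1 = σ⁻¹ • ∑ w, c w • w.1 := by
          rw [← h5, Finset.smul_sum]
          simp [smul_smul]
        rw [h7] at h6
        exact h6
  constructor
  · refine heq_trans (step_one (gen Φ) N hN) (heq_trans (step_two (gen Φ) N hδ hδ0 hN hNc) ?_)
    refine heq_trans (step_three (gen Φ) N ψ hδ hN hNc hψδ hbd hcA (K (gen Φ))) ?_
    exact step_four (gen Φ) N ψ (fun w => w.1) (Gam D β) hΓ star (K (gen Φ))
  · -- compactness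
    have hun : Gam D β = ⋃ B ∈ {B : Finset (Q.extremePoints ℝ) | Adm (gen Φ) N ψ B},
        convexHull ℝ ((B.map (Function.Embedding.subtype _) : Finset (Fin k → ℝ)) :
          Set (Fin k → ℝ)) := by
      ext y
      simp only [Set.mem_iUnion, exists_prop]
      constructor
      · intro hy
        obtain ⟨c, h1, h2, h3⟩ := hΓ y hy
        have hc0 : c ≠ 0 := by
          rintro rfl
          simp at h2
        have h4 := (star c h1 hc0).mp (by rw [h2, inv_one, one_smul, h3]; exact hy)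
        let B := Finset.univ.filter (fun w => 0 < c w)
        refine ⟨B, ?_, ?_⟩
        · intro i hi
          obtain ⟨j, h5, h6⟩ := h4 i hi
          exact ⟨j, fun w hw => h5 w (Finset.mem_filter.mp hw).2, h6⟩
        · have h5 : ∀ w ∉ B, c w = 0 := by
            intro w hw
            rw [Finset.mem_filter] at hw
            push Not at hw
            exact le_antisymm (hw (Finset.mem_univ w)) (h1 w)
          have h6 : ∑ w ∈ B, c w = 1 := by
            rw [← h2]
            exact Finset.sum_subset (Finset.subset_univ B) (fun w _ hw => h5 w hw)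
          have h7 : ∑ w ∈ B, c w • w.1 = y := by
            rw [← h3]
            exact Finset.sum_subset (Finset.subset_univ B) (fun w _ hw => by rw [h5 w hw, zero_smul])
          rw [← h7]
          apply (convex_convexHull ℝ _).sum_mem (fun w _ => h1 w) h6
          intro w hw
          apply subset_convexHull
          simp only [Finset.coe_map, Set.mem_image, Finset.mem_coe]
          exact ⟨w, hw, rfl⟩
      · rintro ⟨B, hB, hy⟩
        rw [Finset.mem_convexHull'] at hy
        obtain ⟨c, h1, h2, h3⟩ := hy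
        rw [Finset.sum_map] at h2 h3
        let c' : Q.extremePoints ℝ → ℝ := fun w => if w ∈ B then c w.1 else 0
        have h4 : ∀ w, 0 ≤ c' w := by
          intro w
          simp only [c']
          split_ifs with h
          · exact h1 _ (Finset.mem_map.mpr ⟨w, h, rfl⟩)
          · exact le_rfl
        have h5 : ∑ w, c' w = 1 := by
          simp only [c', Finset.sum_ite_mem, Finset.univ_inter]
          exact h2
        have h6 : ∑ w, c' w • w.1 = y := by
          simp only [c', ite_smul, zero_smul, Finset.sum_ite_mem, Finset.univ_inter]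
          exact h3
        have hc0 : c' ≠ 0 := by
          intro h
          rw [h] at h5
          simp at h5
        have h7 := (star c' h4 hc0).mpr (by
          intro i hi
          obtain ⟨j, h8, h9⟩ := hB i hi
          refine ⟨j, ?_, h9⟩
          intro w hw
          apply h8
          by_contra hcon
          simp only [c', hcon, if_false] at hw
          exact lt_irrefl _ hw)
        rw [h5, inv_one, one_smul, h6] at h7
        exact h7
    rw [hun]
    apply Set.Finite.isCompact_biUnion (Set.toFinite _)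
    intro B _
    exact (Finset.finite_toSet _).isCompact_convexHull ℝ

end Pool.Agent.Q19.DB
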