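import Mathlib

/-!
# Homotopy equivalences given by straight line homotopies
-/

open Finset Set unitInterval ContinuousMap

namespace Pool.Agent.Q19.DB

/-- Two sets in topological vector spaces are homotopy equivalent when there are maps in both
directions such that all straight segments to the images under the composites stay inside. -/
theorem heq_of {E F : Type*} [AddCommGroup E] [Module ℝ E] [TopologicalSpace E]
    [IsTopologicalAddGroup E] [ContinuousSMul ℝ E] [AddCommGroup F] [Module ℝ F]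
    [TopologicalSpace F] [IsTopologicalAddGroup F] [ContinuousSMul ℝ F]
    {S : Set E} {T : Set F} (f : E → F) (g : F → E)
    (hf : ContinuousOn f S) (hg : ContinuousOn g T) (hfm : MapsTo f S T) (hgm : MapsTo g T S)
    (hS : ∀ x ∈ S, ∀ s : ℝ, 0 ≤ s → s ≤ 1 → (1 - s) • x + s • g (f x) ∈ S)
    (hT : ∀ y ∈ T, ∀ s : ℝ, 0 ≤ s → s ≤ 1 → (1 - s) • y + s • f (g y) ∈ T) :
    Nonempty (S ≃ₕ T) := by
  refine ⟨{
    toFun := ⟨fun x => ⟨f x, hfm x.2⟩, ?_⟩
    invFun := ⟨fun y => ⟨g y, hgm y.2⟩, ?_⟩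
    left_inv := ⟨{
      toFun := fun p => ⟨(1 - (1 - (p.1 : ℝ))) • (p.2 : E) + (1 - (p.1 : ℝ)) • g (f p.2),
        hS p.2 p.2.2 (1 - (p.1 : ℝ)) (by linarith [p.1.2.2]) (by linarith [p.1.2.1])⟩
      continuous_toFun := ?_
      map_zero_left := ?_
      map_one_left := ?_ }⟩
    right_inv := ⟨{
      toFun := fun p => ⟨(1 - (1 - (p.1 : ℝ))) • (p.2 : F) + (1 - (p.1 : ℝ)) • f (g p.2),
        hT p.2 p.2.2 (1 - (p.1 : ℝ)) (by linarith [p.1.2.2]) (by linarith [p.1.2.1])⟩
      continuous_toFun := ?_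
      map_zero_left := ?_
      map_one_left := ?_ }⟩ }⟩
  · exact (continuousOn_iff_continuous_restrict.mp hf).subtype_mk _
  · exact (continuousOn_iff_continuous_restrict.mp hg).subtype_mk _
  · have h1 : Continuous fun p : I × S => g (f p.2) := by
      have h2 : ContinuousOn (fun x => g (f x)) S := hg.comp hf hfm
      exact (continuousOn_iff_continuous_restrict.mp h2).comp continuous_snd
    have h3 : Continuous fun p : I × S => (1 - (p.1 : ℝ)) :=
      continuous_const.sub (continuous_subtype_val.comp continuous_fst)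
    exact ((((continuous_const.sub h3).smul (continuous_subtype_val.comp continuous_snd))).add
      (h3.smul h1)).subtype_mk _
  · intro x
    apply Subtype.ext
    simp
  · intro x
    apply Subtype.ext
    simp
  · have h1 : Continuous fun p : I × T => f (g p.2) := by
      have h2 : ContinuousOn (fun x => f (g x)) T := hf.comp hg hgm
      exact (continuousOn_iff_continuous_restrict.mp h2).comp continuous_snd
    have h3 : Continuous fun p : I × T => (1 - (p.1 : ℝ)) :=
      continuous_const.sub (continuous_subtype_val.comp continuous_fst)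
    exact ((((continuous_const.sub h3).smul (continuous_subtype_val.comp continuous_snd))).add
      (h3.smul h1)).subtype_mk _
  · intro x
    apply Subtype.ext
    simp
  · intro x
    apply Subtype.ext
    simp

theorem heq_trans {X Y Z : Type*} [TopologicalSpace X] [TopologicalSpace Y] [TopologicalSpace Z]
    (h1 : Nonempty (X ≃ₕ Y)) (h2 : Nonempty (Y ≃ₕ Z)) : Nonempty (X ≃ₕ Z) := by
  obtain ⟨a⟩ := h1
  obtain ⟨b⟩ := h2
  exact ⟨a.trans b⟩

theorem heq_symm {X Y : Type*} [TopologicalSpace X] [TopologicalSpace Y]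
    (h1 : Nonempty (X ≃ₕ Y)) : Nonempty (Y ≃ₕ X) := by
  obtain ⟨a⟩ := h1
  exact ⟨a.symm⟩

/-- Normalising a conic set. -/
theorem normalize {E : Type*} [AddCommGroup E] [Module ℝ E] [TopologicalSpace E]
    [IsTopologicalAddGroup E] [ContinuousSMul ℝ E] (S : Set E) (ν : E → ℝ)
    (hν : ContinuousOn ν S) (hpos : ∀ x ∈ S, 0 < ν x)
    (hcon : ∀ x ∈ S, ∀ c : ℝ, 0 < c → c • x ∈ S)
    (hhom : ∀ x ∈ S, ∀ c : ℝ, 0 < c → ν (c • x) = c * ν x) :
    Nonempty ({x | x ∈ S ∧ ν x = 1} ≃ₕ S) := by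
  apply heq_of (fun x => x) (fun x => (ν x)⁻¹ • x)
  · exact continuousOn_id
  · exact (hν.inv₀ (fun x hx => (hpos x hx).ne')).smul continuousOn_id
  · intro x hx
    exact hx.1
  · intro x hx
    refine ⟨hcon x hx _ (inv_pos.mpr (hpos x hx)), ?_⟩
    rw [hhom x hx _ (inv_pos.mpr (hpos x hx))]
    exact inv_mul_cancel₀ (hpos x hx).ne'
  · intro x hx s h0 h1
    have : (1 - s) • x + s • ((ν x)⁻¹ • x) = x := by
      rw [hx.2, inv_one, one_smul, ← add_smul]
      simp
    rw [this]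
    exact hx
  · intro x hx s h0 h1
    have : (1 - s) • x + s • ((ν x)⁻¹ • x) = ((1 - s) + s * (ν x)⁻¹) • x := by
      rw [add_smul, smul_smul]
    rw [this]
    apply hcon x hx
    have h2 := inv_pos.mpr (hpos x hx)
    rcases eq_or_lt_of_le h0 with h | h
    · rw [← h]; simp
    · have := mul_pos h h2
      linarith

/-- The join of a conic set with the sphere of a vector space, in conic form. -/
def Jn {E F : Type*} [Zero E] [Zero F] (G : Set E) (K : Set F) : Set (E × F) :=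
  {p | (p.1 ∈ G ∧ p.2 ∈ K) ∨ (p.1 = 0 ∧ p.2 ∈ K ∧ p.2 ≠ 0)}

theorem Jn_heq {E₁ E₂ F : Type*} [AddCommGroup E₁] [Module ℝ E₁] [TopologicalSpace E₁]
    [IsTopologicalAddGroup E₁] [ContinuousSMul ℝ E₁] [AddCommGroup E₂] [Module ℝ E₂]
    [TopologicalSpace E₂] [IsTopologicalAddGroup E₂] [ContinuousSMul ℝ E₂]
    [AddCommGroup F] [Module ℝ F] [TopologicalSpace F]
    [IsTopologicalAddGroup F] [ContinuousSMul ℝ F]
    {G₁ : Set E₁} {G₂ : Set E₂} {K : Set F} (f : E₁ → E₂) (g : E₂ → E₁)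
    (hf : ContinuousOn f (insert 0 G₁)) (hg : ContinuousOn g (insert 0 G₂))
    (hf0 : f 0 = 0) (hg0 : g 0 = 0) (hfm : MapsTo f G₁ G₂) (hgm : MapsTo g G₂ G₁)
    (h₁ : ∀ x ∈ G₁, ∀ s : ℝ, 0 ≤ s → s ≤ 1 → (1 - s) • x + s • g (f x) ∈ G₁)
    (h₂ : ∀ x ∈ G₂, ∀ s : ℝ, 0 ≤ s → s ≤ 1 → (1 - s) • x + s • f (g x) ∈ G₂) :
    Nonempty (Jn G₁ K ≃ₕ Jn G₂ K) := by
  have aux' : ∀ (k : F) (s : ℝ), (1 - s) • k + s • k = k := by
    intro k s
    rw [← add_smul]; simp
  apply heq_of (fun p => (f p.1, p.2)) (fun p => (g p.1, p.2))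
  · apply ContinuousOn.prodMk
    · apply hf.comp continuousOn_fst
      intro p hp
      rcases hp with hp | hp
      · exact Set.mem_insert_of_mem _ hp.1
      · exact Set.mem_insert_iff.mpr (Or.inl hp.1)
    · exact continuousOn_snd
  · apply ContinuousOn.prodMk
    · apply hg.comp continuousOn_fst
      intro p hp
      rcases hp with hp | hp
      · exact Set.mem_insert_of_mem _ hp.1
      · exact Set.mem_insert_iff.mpr (Or.inl hp.1)
    · exact continuousOn_snd
  · intro p hp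
    rcases hp with hp | hp
    · exact Or.inl ⟨hfm hp.1, hp.2⟩
    · refine Or.inr ⟨?_, hp.2⟩
      simp [hp.1, hf0]
  · intro p hp
    rcases hp with hp | hp
    · exact Or.inl ⟨hgm hp.1, hp.2⟩
    · refine Or.inr ⟨?_, hp.2⟩
      simp [hp.1, hg0]
  · intro p hp s h0 h1
    have hsnd : ((1 - s) • p + s • ((g (f p.1), p.2) : E₁ × F)).2 = p.2 := aux' p.2 s
    rcases hp with hp | hp
    · refine Or.inl ⟨h₁ p.1 hp.1 s h0 h1, ?_⟩
      rw [hsnd]; exact hp.2
    · refine Or.inr ⟨?_, ?_⟩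
      · simp [hp.1, hf0, hg0]
      · rw [hsnd]; exact hp.2
  · intro p hp s h0 h1
    have hsnd : ((1 - s) • p + s • ((f (g p.1), p.2) : E₂ × F)).2 = p.2 := aux' p.2 s
    rcases hp with hp | hp
    · refine Or.inl ⟨h₂ p.1 hp.1 s h0 h1, ?_⟩
      rw [hsnd]; exact hp.2
    · refine Or.inr ⟨?_, ?_⟩
      · simp [hp.1, hf0, hg0]
      · rw [hsnd]; exact hp.2

end Pool.Agent.Q19.DB
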