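import Mathlib

/-!
# Polytopes: vertices
-/

open Set

namespace Pool.Agent.Q19.DB

variable {k : ℕ}

theorem poly_compact (S : Finset (Fin k → ℝ)) : IsCompact (convexHull ℝ (S : Set (Fin k → ℝ))) :=
  S.finite_toSet.isCompact_convexHull ℝ

theorem poly_ext_finite (S : Finset (Fin k → ℝ)) :
    ((convexHull ℝ (S : Set (Fin k → ℝ))).extremePoints ℝ).Finite :=
  S.finite_toSet.subset extremePoints_convexHull_subset

theorem poly_eq (S : Finset (Fin k → ℝ)) :
    convexHull ℝ ((convexHull ℝ (S : Set (Fin k → ℝ))).extremePoints ℝ) =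
      convexHull ℝ (S : Set (Fin k → ℝ)) := by
  have h1 := closure_convexHull_extremePoints (poly_compact S) (convex_convexHull ℝ _)
  have h2 : IsClosed (convexHull ℝ ((convexHull ℝ (S : Set (Fin k → ℝ))).extremePoints ℝ)) :=
    ((poly_ext_finite S).isCompact_convexHull ℝ).isClosed
  rwa [h2.closure_eq] at h1

theorem poly_exposed (S : Finset (Fin k → ℝ)) (w : Fin k → ℝ)
    (hw : w ∈ (convexHull ℝ (S : Set (Fin k → ℝ))).extremePoints ℝ) :
    IsExposed ℝ (convexHull ℝ (S : Set (Fin k → ℝ))) {w} := by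
  classical
  set Q := convexHull ℝ (S : Set (Fin k → ℝ)) with hQ
  have hwS : w ∈ (S : Set (Fin k → ℝ)) := extremePoints_convexHull_subset hw
  have hwQ : w ∈ Q := hw.1
  let S' : Set (Fin k → ℝ) := (S : Set (Fin k → ℝ)) \ {w}
  have hS'f : S'.Finite := S.finite_toSet.subset Set.sdiff_subset
  have hins : (S : Set (Fin k → ℝ)) = insert w S' := by
    ext x
    simp only [S', Set.mem_insert_iff, Set.mem_sdiff, Set.mem_singleton_iff]
    by_cases h : x = w
    · subst h; simp [hwS]
    · simp [h]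
  have hnot : w ∉ convexHull ℝ S' := by
    have h1 : Convex ℝ (Q \ {w}) := ((convex_convexHull ℝ _).mem_extremePoints_iff_convex_sdiff.mp hw).2
    have h2 : convexHull ℝ S' ⊆ Q \ {w} := by
      apply convexHull_min _ h1
      intro x hx
      exact ⟨subset_convexHull ℝ _ hx.1, hx.2⟩
    intro h3
    exact (h2 h3).2 rfl
  rcases S'.eq_empty_or_nonempty with h0 | h0
  · have : Q = {w} := by
      rw [hQ, hins, h0]
      simp
    rw [this]
  obtain ⟨f, u, h1, h2⟩ := geometric_hahn_banach_point_closed (convex_convexHull ℝ S')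
    (hS'f.isCompact_convexHull ℝ).isClosed hnot
  have key : ∀ z ∈ Q, z = w ∨ f w < f z := by
    intro z hz
    rw [hQ, hins, convexHull_insert h0] at hz
    obtain ⟨a, ha, b, hb, hzab⟩ := mem_convexJoin.mp hz
    rw [Set.mem_singleton_iff.mp ha] at hzab
    obtain ⟨x, y, hx, hy, hxy, rfl⟩ := hzab
    rcases eq_or_lt_of_le hy with h | h
    · left
      rw [← h] at hxy ⊢
      simp only [add_zero] at hxy
      simp [hxy]
    · right
      have h3 := h2 b hb
      rw [map_add, map_smul, map_smul, smul_eq_mul, smul_eq_mul]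
      have h4 : f w < f b := h1.trans h3
      have h5 := mul_lt_mul_of_pos_left h4 h
      have h6 : f w = x * f w + y * f w := by rw [← add_mul, hxy, one_mul]
      linarith
  intro _
  refine ⟨-f, ?_⟩
  ext y
  constructor
  · intro hy
    rw [Set.mem_singleton_iff.mp hy]
    refine ⟨hwQ, ?_⟩
    intro z hz
    rcases key z hz with h | h
    · rw [h]
    · show -(f z) ≤ -(f w)
      linarith
  · rintro ⟨hyQ, hy⟩
    rcases key y hyQ with h | h
    · exact h
    · have h3 := hy w hwQ
      have h4 : -(f w) ≤ -(f y) := h3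
      linarith

/-- points of the hull of a finite set of points -/
theorem mem_hull_fintype (W : Set (Fin k → ℝ)) [Fintype W] (x : Fin k → ℝ)
    (hx : x ∈ convexHull ℝ W) :
    ∃ c : W → ℝ, (∀ w, 0 ≤ c w) ∧ ∑ w, c w = 1 ∧ ∑ w, c w • w.1 = x := by
  classical
  have h1 : W = ((W.toFinset : Finset (Fin k → ℝ)) : Set (Fin k → ℝ)) := by simp
  rw [h1, Finset.mem_convexHull'] at hx
  obtain ⟨c, h2, h3, h4⟩ := hx
  refine ⟨fun w => c w.1, fun w => h2 _ (by simp), ?_, ?_⟩
  · rw [← h3]
    rw [← Finset.sum_coe_sort W.toFinset c]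
    exact Fintype.sum_equiv (Equiv.setCongr h1) _ _ (fun _ => rfl)
  · rw [← h4]
    rw [← Finset.sum_coe_sort W.toFinset (fun y => c y • y)]
    exact Fintype.sum_equiv (Equiv.setCongr h1) _ _ (fun _ => rfl)

end Pool.Agent.Q19.DB
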