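import Pool.Agent.Q19.DB.StepFour
import Pool.Agent.Q19.DB.Defs

/-!
# Iterated suspensions of a compact subset of `ℝ ^ k`
-/

open Finset Set unitInterval ContinuousMap

namespace Pool.Agent.Q19.DB

/-- class of a point in the suspension -/
def sk {X : Type} (a : (X × unitInterval) ⊕ Bool) : Quot (SuspRel X) := Quot.mk _ a

theorem sk_bot {X : Type} (x : X) : sk (Sum.inl (x, 0)) = (sk (Sum.inr false) : Quot (SuspRel X)) :=
  Quot.sound (SuspRel.bot x)

theorem sk_top {X : Type} (x : X) : sk (Sum.inl (x, 1)) = (sk (Sum.inr true) : Quot (SuspRel X)) :=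
  Quot.sound (SuspRel.top x)

theorem sk_cont {X : Type} [TopologicalSpace X] :
    Continuous (sk : (X × unitInterval) ⊕ Bool → Quot (SuspRel X)) := continuous_quot_mk

theorem susp_compact {X : Type} [TopologicalSpace X] [CompactSpace X] :
    CompactSpace (Quot (SuspRel X)) := Quot.compactSpace

/-- map of suspensions -/
def smap {X Y : Type} (f : X → Y) : Quot (SuspRel X) → Quot (SuspRel Y) :=
  Quot.lift (fun a => sk (Sum.map (Prod.map f id) id a)) (by
    intro a b h
    cases h with
    | bot x => exact sk_bot (f x)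
    | top x => exact sk_top (f x))

theorem smap_cont {X Y : Type} [TopologicalSpace X] [TopologicalSpace Y] (f : X → Y)
    (hf : Continuous f) : Continuous (smap f) := by
  apply continuous_quot_lift
  exact sk_cont.comp ((hf.prodMap continuous_id).sumMap continuous_id)

theorem smap_comp {X Y : Type} (f : X → Y) (g : Y → X) (h : ∀ x, g (f x) = x)
    (a : Quot (SuspRel X)) : smap g (smap f a) = a := by
  induction a using Quot.inductionOn with
  | h a =>
    rcases a with ⟨x, t⟩ | b
    · show sk (Sum.inl (g (f x), t)) = sk (Sum.inl (x, t))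
      rw [h]
    · rfl

/-- The suspension is a functor on homeomorphisms. -/
def shomeo {X Y : Type} [TopologicalSpace X] [TopologicalSpace Y] (e : X ≃ₜ Y) :
    Quot (SuspRel X) ≃ₜ Quot (SuspRel Y) where
  toFun := smap e
  invFun := smap e.symm
  left_inv := smap_comp e e.symm e.symm_apply_apply
  right_inv := smap_comp e.symm e e.apply_symm_apply
  continuous_toFun := smap_cont e e.continuous
  continuous_invFun := smap_cont e.symm e.symm.continuous

variable {k : ℕ} (Γ : Set (Fin k → ℝ))

/-- the height function `2 t - 1` -/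
def ht (t : unitInterval) : ℝ := 2 * (t : ℝ) - 1

theorem ht_cont : Continuous ht :=
  (continuous_const.mul continuous_subtype_val).sub continuous_const

theorem ht_abs (t : unitInterval) : |ht t| ≤ 1 := by
  unfold ht
  rw [abs_le]
  constructor <;> linarith [t.2.1, t.2.2]

/-- the underlying map of the homeomorphism -/
noncomputable def pre (m : ℕ) : (Nm Γ m × unitInterval) ⊕ Bool →
    ((Fin k → ℝ) × ℝ) × (Fin (m + 1) → ℝ)
  | Sum.inl (p, t) => ((1 - |ht t|) • p.1.1, Fin.cons (ht t) ((1 - |ht t|) • p.1.2))
  | Sum.inr b => (0, Fin.cons (if b then 1 else -1) 0)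

theorem pre_mem (m : ℕ) (a : (Nm Γ m × unitInterval) ⊕ Bool) : pre Γ m a ∈ Nm Γ (m + 1) := by
  rcases a with ⟨⟨p, hp⟩, t⟩ | b
  · have ha := ht_abs t
    obtain ⟨hp1, hp2⟩ := hp
    constructor
    · rcases eq_or_lt_of_le (show 0 ≤ 1 - |ht t| by linarith) with h | h
      · right
        refine ⟨?_, Set.mem_univ _, ?_⟩
        · simp only [pre]
          rw [← h, zero_smul]
        · intro h1
          have h2 := congrFun h1 0
          simp only [pre, Fin.cons_zero, Pi.zero_apply] at h2
          rw [h2] at h
          simp at h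
      · rcases hp1 with ⟨h4, _⟩ | ⟨h4, _, h6⟩
        · left
          refine ⟨⟨mul_pos h h4.1, ?_⟩, Set.mem_univ _⟩
          have h5 : ((1 - |ht t|) • p.1).2⁻¹ • ((1 - |ht t|) • p.1).1 = p.1.2⁻¹ • p.1.1 := by
            simp only [Prod.smul_fst, Prod.smul_snd, smul_smul, smul_eq_mul]
            congr 1
            have := h4.1.ne'
            field_simp
          show ((1 - |ht t|) • p.1).2⁻¹ • ((1 - |ht t|) • p.1).1 ∈ Γ
          rw [h5]
          exact h4.2
        · right
          refine ⟨?_, Set.mem_univ _, ?_⟩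
          · simp only [pre]
            rw [h4, smul_zero]
          · intro h1
            apply h6
            funext i
            have h2 := congrFun h1 i.succ
            simp only [pre, Fin.cons_succ, Pi.zero_apply, Pi.smul_apply, smul_eq_mul] at h2
            rcases mul_eq_zero.mp h2 with h3 | h3
            · exact absurd h3 h.ne'
            · exact h3
    · simp only [pre]
      rw [Fin.sum_univ_succ]
      simp only [Fin.cons_zero, Fin.cons_succ, Pi.smul_apply, smul_eq_mul, Prod.smul_snd, abs_mul,
        abs_of_nonneg (show 0 ≤ 1 - |ht t| by linarith)]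
      rw [← Finset.mul_sum]
      have : (1 - |ht t|) * p.1.2 + (|ht t| + (1 - |ht t|) * ∑ i, |p.2 i|) =
          (1 - |ht t|) * (p.1.2 + ∑ i, |p.2 i|) + |ht t| := by ring
      rw [this, hp2]
      ring
  · constructor
    · right
      refine ⟨rfl, Set.mem_univ _, ?_⟩
      intro h1
      have h2 := congrFun h1 0
      cases b <;> simp [pre] at h2
    · simp only [pre]
      rw [Fin.sum_univ_succ]
      cases b <;> simp

theorem pre_cont (m : ℕ) : Continuous (pre Γ m) := by
  apply continuous_sum_dom.mpr
  constructor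
  · have h1 : Continuous fun a : Nm Γ m × unitInterval => 1 - |ht a.2| :=
      continuous_const.sub (ht_cont.comp continuous_snd).abs
    have h2 : Continuous fun a : Nm Γ m × unitInterval => (a.1 : ((Fin k → ℝ) × ℝ) × (Fin m → ℝ)) :=
      continuous_subtype_val.comp continuous_fst
    apply Continuous.prodMk
    · exact h1.smul (continuous_fst.comp h2)
    · apply continuous_pi
      intro i
      refine Fin.cases ?_ (fun j => ?_) i
      · simp only [Fin.cons_zero]
        exact ht_cont.comp continuous_snd
      · simp only [Fin.cons_succ, Pi.smul_apply, smul_eq_mul]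
        exact h1.mul ((continuous_apply j).comp (continuous_snd.comp h2))
  · exact continuous_of_discreteTopology

/-- the map on the suspension -/
noncomputable def Phi (m : ℕ) : Quot (SuspRel (Nm Γ m)) → Nm Γ (m + 1) :=
  Quot.lift (fun a => ⟨pre Γ m a, pre_mem Γ m a⟩) (by
    intro a b h
    cases h with
    | bot x =>
      apply Subtype.ext
      simp only [pre, ht]
      simp
    | top x =>
      apply Subtype.ext
      simp only [pre, ht]
      have : (2 * ((1 : unitInterval) : ℝ) - 1) = 1 := by norm_num
      simp only [this]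
      simp)

theorem Phi_cont (m : ℕ) : Continuous (Phi Γ m) := by
  apply continuous_quot_lift
  exact (pre_cont Γ m).subtype_mk _

theorem ht_neg_one (t : unitInterval) (h : ht t = -1) : t = 0 := by
  apply Subtype.ext
  unfold ht at h
  have : (t : ℝ) = 0 := by linarith
  rw [this]; rfl

theorem ht_one (t : unitInterval) (h : ht t = 1) : t = 1 := by
  apply Subtype.ext
  unfold ht at h
  have : (t : ℝ) = 1 := by linarith
  rw [this]; rfl

/-- normal form of points of the suspension -/
theorem susp_cases {X : Type} (a : Quot (SuspRel X)) :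
    a = sk (Sum.inr false) ∨ a = sk (Sum.inr true) ∨ ∃ x t, |ht t| < 1 ∧ a = sk (Sum.inl (x, t)) := by
  induction a using Quot.inductionOn with
  | h a =>
    rcases a with ⟨x, t⟩ | b
    · rcases eq_or_lt_of_le (ht_abs t) with h | h
      · rcases (abs_eq zero_le_one).mp h with h1 | h1
        · right; left
          rw [ht_one t h1]
          exact sk_top x
        · left
          rw [ht_neg_one t h1]
          exact sk_bot x
      · right; right
        exact ⟨x, t, h, rfl⟩
    · cases b
      · left; rfl
      · right; left; rfl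

theorem Phi_height (m : ℕ) (a : Quot (SuspRel (Nm Γ m))) :
    (a = sk (Sum.inr false) ∧ (Phi Γ m a).1.2 0 = -1) ∨
    (a = sk (Sum.inr true) ∧ (Phi Γ m a).1.2 0 = 1) ∨
    ∃ x t, |ht t| < 1 ∧ a = sk (Sum.inl (x, t)) ∧ (Phi Γ m a).1.2 0 = ht t := by
  rcases susp_cases a with h | h | ⟨x, t, h1, h2⟩
  · left
    refine ⟨h, ?_⟩
    subst h
    show (pre Γ m (Sum.inr false)).2 0 = -1
    simp [pre]
  · right; left
    refine ⟨h, ?_⟩
    subst h
    show (pre Γ m (Sum.inr true)).2 0 = 1
    simp [pre]
  · right; right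
    refine ⟨x, t, h1, h2, ?_⟩
    subst h2
    show (pre Γ m (Sum.inl (x, t))).2 0 = ht t
    simp [pre]

theorem Phi_inj (m : ℕ) : Function.Injective (Phi Γ m) := by
  intro a b hab
  have hh : (Phi Γ m a).1.2 0 = (Phi Γ m b).1.2 0 := by rw [hab]
  rcases Phi_height Γ m a with ⟨h1, h2⟩ | ⟨h1, h2⟩ | ⟨x, t, h0, h1, h2⟩ <;>
  rcases Phi_height Γ m b with ⟨h3, h4⟩ | ⟨h3, h4⟩ | ⟨y, u, h5, h3, h4⟩
  · rw [h1, h3]
  · rw [h2, h4] at hh; norm_num at hh
  · rw [h2, h4] at hh; rw [← hh] at h5; norm_num at h5
  · rw [h2, h4] at hh; norm_num at hh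
  · rw [h1, h3]
  · rw [h2, h4] at hh; rw [← hh] at h5; norm_num at h5
  · rw [h2, h4] at hh; rw [hh] at h0; norm_num at h0
  · rw [h2, h4] at hh; rw [hh] at h0; norm_num at h0
  · rw [h2, h4] at hh
    have htu : t = u := by
      apply Subtype.ext
      unfold ht at hh
      linarith
    subst htu
    subst h1 h3
    have h6 : pre Γ m (Sum.inl (x, t)) = pre Γ m (Sum.inl (y, t)) := congrArg Subtype.val hab
    simp only [pre] at h6
    have hne : (1 - |ht t|) ≠ 0 := by linarith
    have h7 : x.1.1 = y.1.1 := by
      have := congrArg Prod.fst h6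
      simp only at this
      exact smul_right_injective _ hne this
    have h8 : x.1.2 = y.1.2 := by
      funext j
      have := congrFun (congrArg Prod.snd h6) j.succ
      simp only [Fin.cons_succ, Pi.smul_apply, smul_eq_mul] at this
      exact mul_left_cancel₀ hne this
    have : x = y := Subtype.ext (Prod.ext h7 h8)
    rw [this]

theorem Nm_zero {m : ℕ} {p : ((Fin k → ℝ) × ℝ) × (Fin m → ℝ)} (hp : p ∈ Nm Γ m) : 0 ≤ p.1.2 := by
  rcases hp.1 with ⟨h, _⟩ | ⟨h, _⟩
  · exact h.1.le
  · rw [h]; exact le_rfl

theorem Phi_surj (m : ℕ) : Function.Surjective (Phi Γ m) := by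
  rintro ⟨q, hq⟩
  have hq0 := Nm_zero Γ hq
  obtain ⟨hq1, hq2⟩ := hq
  have hs : ∑ i, |q.2 i| = |q.2 0| + ∑ i : Fin m, |q.2 i.succ| := Fin.sum_univ_succ _
  rw [hs] at hq2
  have hs0 : 0 ≤ ∑ i : Fin m, |q.2 i.succ| := Finset.sum_nonneg fun i _ => abs_nonneg _
  have ha0 := abs_nonneg (q.2 0)
  rcases eq_or_lt_of_le (show |q.2 0| ≤ 1 by linarith) with h | h
  · have h1 : q.1.2 = 0 := by linarith
    have h2 : ∑ i : Fin m, |q.2 i.succ| = 0 := by linarith
    have h3 : q.1 = 0 := by
      rcases hq1 with ⟨h4, _⟩ | ⟨h4, _⟩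
      · have := h4.1
        linarith
      · exact h4
    have h4 : ∀ i : Fin m, q.2 i.succ = 0 := by
      intro i
      have := (Finset.sum_eq_zero_iff_of_nonneg (fun i _ => abs_nonneg _)).mp h2 i (Finset.mem_univ i)
      exact abs_eq_zero.mp this
    rcases (abs_eq zero_le_one).mp h with h5 | h5
    · refine ⟨sk (Sum.inr true), ?_⟩
      apply Subtype.ext
      show pre Γ m (Sum.inr true) = q
      apply Prod.ext
      · simp [pre, h3]
      · funext i
        refine Fin.cases ?_ (fun j => ?_) i
        · simp [pre, h5]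
        · simp [pre, h4 j]
    · refine ⟨sk (Sum.inr false), ?_⟩
      apply Subtype.ext
      show pre Γ m (Sum.inr false) = q
      apply Prod.ext
      · simp [pre, h3]
      · funext i
        refine Fin.cases ?_ (fun j => ?_) i
        · simp [pre, h5]
        · simp [pre, h4 j]
  · set c := 1 - |q.2 0| with hc
    have hcpos : 0 < c := by linarith
    have habs := abs_lt.mp h
    let t : unitInterval := ⟨(q.2 0 + 1) / 2, by constructor <;> linarith⟩
    have htt : ht t = q.2 0 := by
      simp only [ht, t]; ring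
    let p : ((Fin k → ℝ) × ℝ) × (Fin m → ℝ) := (c⁻¹ • q.1, fun i => c⁻¹ * q.2 i.succ)
    have hp : p ∈ Nm Γ m := by
      constructor
      · rcases hq1 with ⟨h4, _⟩ | ⟨h4, _, h6⟩
        · left
          refine ⟨⟨mul_pos (inv_pos.mpr hcpos) h4.1, ?_⟩, Set.mem_univ _⟩
          have h5 : (c⁻¹ • q.1).2⁻¹ • (c⁻¹ • q.1).1 = q.1.2⁻¹ • q.1.1 := by
            simp only [Prod.smul_fst, Prod.smul_snd, smul_smul, smul_eq_mul]
            congr 1
            have := h4.1.ne'
            field_simp
          show (c⁻¹ • q.1).2⁻¹ • (c⁻¹ • q.1).1 ∈ Γ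
          rw [h5]
          exact h4.2
        · right
          refine ⟨?_, Set.mem_univ _, ?_⟩
          · simp only [p]
            rw [h4, smul_zero]
          · intro h1
            have h2 : ∀ i : Fin m, q.2 i.succ = 0 := by
              intro i
              have := congrFun h1 i
              simp only [p, Pi.zero_apply] at this
              rcases mul_eq_zero.mp this with h3 | h3
              · exact absurd h3 (inv_pos.mpr hcpos).ne'
              · exact h3
            have h3 : q.1.2 = 0 := by rw [h4]; rfl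
            simp only [h2, abs_zero, Finset.sum_const_zero, h3] at hq2
            linarith
      · simp only [p, abs_mul, abs_of_pos (inv_pos.mpr hcpos), Prod.smul_snd, smul_eq_mul]
        rw [← Finset.mul_sum, ← mul_add]
        have : q.1.2 + ∑ i : Fin m, |q.2 i.succ| = c := by linarith
        rw [this]
        exact inv_mul_cancel₀ hcpos.ne'
    refine ⟨sk (Sum.inl (⟨p, hp⟩, t)), ?_⟩
    apply Subtype.ext
    show pre Γ m (Sum.inl (⟨p, hp⟩, t)) = q
    simp only [pre]
    rw [htt, ← hc]
    apply Prod.ext
    · simp only [p]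
      rw [smul_smul, mul_inv_cancel₀ hcpos.ne', one_smul]
    · funext i
      refine Fin.cases ?_ (fun j => ?_) i
      · simp
      · simp only [Fin.cons_succ, Pi.smul_apply, smul_eq_mul, p]
        rw [← mul_assoc, mul_inv_cancel₀ hcpos.ne', one_mul]

/-- The normalised model for `m = 0` is the set itself. -/
noncomputable def Nm_base : Γ ≃ₜ Nm Γ 0 where
  toFun x := ⟨((x.1, 1), 0), by
    refine ⟨Or.inl ⟨⟨one_pos, ?_⟩, Set.mem_univ _⟩, ?_⟩
    · simpa using x.2
    · simp⟩
  invFun p := ⟨p.1.1.1, by
    obtain ⟨⟨p, u⟩, hp, h1⟩ := p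
    simp only [Finset.univ_eq_empty, Finset.sum_empty, add_zero] at h1
    rcases hp with ⟨h4, _⟩ | ⟨h4, _, h6⟩
    · have := h4.2
      simp only [h1] at this
      simpa using this
    · exfalso
      apply h6
      funext i
      exact i.elim0⟩
  left_inv x := rfl
  right_inv p := by
    obtain ⟨⟨p, u⟩, hp, h1⟩ := p
    apply Subtype.ext
    simp only [Finset.univ_eq_empty, Finset.sum_empty, add_zero] at h1
    apply Prod.ext
    · apply Prod.ext
      · rfl
      · exact h1.symm
    · funext i
      exact i.elim0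
  continuous_toFun := by
    apply Continuous.subtype_mk
    exact (continuous_subtype_val.prodMk continuous_const).prodMk continuous_const
  continuous_invFun := by
    apply Continuous.subtype_mk
    exact continuous_fst.comp (continuous_fst.comp continuous_subtype_val)

theorem Nm_sus (hΓ : IsCompact Γ) (m : ℕ) :
    CompactSpace (Nm Γ m) ∧ Nonempty ((Nm Γ m) ≃ₜ (Sus^[m] (TopCat.of Γ))) := by
  induction m with
  | zero =>
    have : CompactSpace Γ := isCompact_iff_compactSpace.mp hΓ
    exact ⟨(Nm_base Γ).compactSpace, ⟨(Nm_base Γ).symm⟩⟩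
  | succ m ih =>
    obtain ⟨hc, ⟨e⟩⟩ := ih
    have hcs : CompactSpace (Quot (SuspRel (Nm Γ m))) := susp_compact
    let e1 : Quot (SuspRel (Nm Γ m)) ≃ₜ Nm Γ (m + 1) :=
      Continuous.homeoOfEquivCompactToT2 (f := Equiv.ofBijective _ ⟨Phi_inj Γ m, Phi_surj Γ m⟩)
        (Phi_cont Γ m)
    refine ⟨e1.compactSpace, ?_⟩
    rw [Function.iterate_succ_apply']
    exact ⟨e1.symm.trans (shomeo e)⟩

end Pool.Agent.Q19.DB
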