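import Pool.Agent.Q19.DB.CFs
import Pool.Agent.Q19.DB.Poly
import Pool.Agent.Q19.DB.Sus

/-!
# Assembling the homotopy equivalence
-/

open Set ContinuousMap

namespace Pool.Agent.Q19.DB

variable {r n : ℕ} (Φ : Matrix (Fin r) (Fin n) ℤ)

theorem zero_mem_cone : (0 : Fin n → ℝ) ∈ cone Φ := ⟨fun _ => le_rfl, Matrix.mulVec_zero _⟩

theorem cone_convex : Convex ℝ (cone Φ) := by
  intro x hx y hy a b ha hb _
  exact cone_add Φ (cone_smul Φ hx ha) (cone_smul Φ hy hb)

theorem zero_not_intrinsic (hC : cone Φ ≠ {0}) : (0 : Fin n → ℝ) ∉ intrinsicInterior ℝ (cone Φ) := by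
  intro h
  obtain ⟨x, hx, hx0⟩ : ∃ x ∈ cone Φ, x ≠ 0 := by
    by_contra hcon
    push Not at hcon
    apply hC
    ext x
    constructor
    · intro hx
      exact hcon x hx
    · intro hx
      rw [Set.mem_singleton_iff.mp hx]
      exact zero_mem_cone Φ
  rw [mem_intrinsicInterior] at h
  obtain ⟨y, hy, hy0⟩ := h
  have h0 : (0 : Fin n → ℝ) ∈ affineSpan ℝ (cone Φ) := subset_affineSpan ℝ _ (zero_mem_cone Φ)
  have hxa : x ∈ affineSpan ℝ (cone Φ) := subset_affineSpan ℝ _ hx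
  let c : ℝ → affineSpan ℝ (cone Φ) := fun t => ⟨(-t) • x, by
    have := AffineMap.lineMap_mem (-t) h0 hxa
    simpa [AffineMap.lineMap_apply] using this⟩
  have hc : Continuous c := by
    apply Continuous.subtype_mk
    exact (continuous_neg).smul continuous_const
  have hc0 : c 0 = y := by
    apply Subtype.ext
    simp [c, hy0]
  have h1 : ∀ᶠ t in nhds (0 : ℝ), c t ∈ interior ((↑) ⁻¹' cone Φ : Set (affineSpan ℝ (cone Φ))) := by
    apply hc.continuousAt.eventually_mem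
    rw [hc0]
    exact isOpen_interior.mem_nhds hy
  have h2 : ∀ᶠ t in nhdsWithin (0 : ℝ) (Set.Ioi 0),
      c t ∈ interior ((↑) ⁻¹' cone Φ : Set (affineSpan ℝ (cone Φ))) :=
    h1.filter_mono nhdsWithin_le_nhds
  obtain ⟨t, ht1, ht2⟩ := (h2.and self_mem_nhdsWithin).exists
  have ht3' : c t ∈ ((↑) ⁻¹' cone Φ : Set (affineSpan ℝ (cone Φ))) := interior_subset ht1
  have ht3 : (-t) • x ∈ cone Φ := ht3'
  have ht4 : 0 < t := ht2
  apply hx0
  funext i
  have h3 := ht3.1 i
  have h4 := hx.1 i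
  simp only [Pi.smul_apply, smul_eq_mul] at h3
  simp only [Pi.zero_apply]
  nlinarith

/-- A cross-section is cut out by a functional which is positive on the cone. -/
theorem cross (hC : cone Φ ≠ {0}) {P : Set (Fin n → ℝ)} (hP : IsCrossSection Φ P) :
    ∃ g : (Fin n → ℝ) →ₗ[ℝ] ℝ, (∀ x ∈ cone Φ, x ≠ 0 → 0 < g x) ∧
      P = cone Φ ∩ {x | g x = 1} := by
  obtain ⟨l, c, _, hPe, hb, x0, hx0P, hx0i⟩ := hP
  have hx0C : x0 ∈ cone Φ := by rw [hPe] at hx0P; exact hx0P.1
  have hx0c : l x0 = c := by rw [hPe] at hx0P; exact hx0P.2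
  have hx00 : x0 ≠ 0 := by
    rintro rfl
    exact zero_not_intrinsic Φ hC hx0i
  obtain ⟨R, hR⟩ := hb.exists_norm_le
  -- unboundedness along a ray
  have hunb : ∀ x ∈ cone Φ, x ≠ 0 → (∀ s : ℝ, 0 ≤ s → ∃ a : ℝ, 0 ≤ a ∧ a • x0 + s • x ∈ P) →
      False := by
    intro x hx hx0 h
    obtain ⟨i, hi⟩ := Function.ne_iff.mp hx0
    have hi' : 0 < x i := lt_of_le_of_ne (hx.1 i) (Ne.symm hi)
    obtain ⟨a, ha, h1⟩ := h ((|R| + 1) / x i) (by positivity)
    have h2 := hR _ h1
    have h3 := norm_le_pi_norm (a • x0 + ((|R| + 1) / x i) • x) i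
    simp only [Pi.add_apply, Pi.smul_apply, smul_eq_mul] at h3
    have h4 : (|R| + 1) / x i * x i = |R| + 1 := div_mul_cancel₀ _ hi'.ne'
    rw [h4] at h3
    have h5 : 0 ≤ a * x0 i := mul_nonneg ha (hx0C.1 i)
    rw [Real.norm_eq_abs, abs_of_nonneg (by positivity)] at h3
    have := le_abs_self R
    linarith
  have hc0 : c ≠ 0 := by
    intro hc
    apply hunb x0 hx0C hx00
    intro s hs
    refine ⟨0, le_rfl, ?_⟩
    rw [hPe]
    refine ⟨by simpa using cone_smul Φ hx0C hs, ?_⟩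
    simp [hx0c, hc]
  refine ⟨c⁻¹ • l, ?_, ?_⟩
  · intro x hx hx0
    by_contra hcon
    push Not at hcon
    simp only [LinearMap.smul_apply, smul_eq_mul] at hcon
    apply hunb x hx hx0
    intro s hs
    have h1 : 0 ≤ 1 - s * (c⁻¹ * l x) := by nlinarith
    refine ⟨1 - s * (c⁻¹ * l x), h1, ?_⟩
    rw [hPe]
    refine ⟨cone_add Φ (cone_smul Φ hx0C h1) (cone_smul Φ hx hs), ?_⟩
    simp only [Set.mem_ofPred_eq, map_add, map_smul, smul_eq_mul, hx0c]
    field_simp
    ring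
  · rw [hPe]
    ext x
    simp only [Set.mem_inter_iff, Set.mem_ofPred_eq, LinearMap.smul_apply, smul_eq_mul]
    constructor
    · rintro ⟨h1, h2⟩
      refine ⟨h1, ?_⟩
      rw [h2, inv_mul_cancel₀ hc0]
    · rintro ⟨h1, h2⟩
      refine ⟨h1, ?_⟩
      have := congrArg (fun z => c * z) h2
      simp only [mul_one] at this
      rw [← mul_assoc, mul_inv_cancel₀ hc0, one_mul] at this
      exact this

/-- the generators as real vectors -/
def gen (j : CF Φ) : Fin n → ℝ := toReal j.1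

theorem Cn_eq [Fintype (CF Φ)] : Cn (gen Φ) = cone Φ := by
  ext x
  constructor
  · rintro ⟨y, hy, rfl⟩
    exact Finset.sum_induction _ (· ∈ cone Φ) (fun a b ha hb => cone_add Φ ha hb)
      (zero_mem_cone Φ) (fun j _ => cone_smul Φ j.2.1.1 (hy j))
  · intro hx
    obtain ⟨y, h1, h2⟩ := CF_generates Φ x hx
    exact ⟨y, h1, h2⟩

theorem cone_ne (hC : cone Φ ≠ {0}) : ∃ x ∈ cone Φ, x ≠ 0 := by
  by_contra hcon
  push Not at hcon
  apply hC
  ext x
  constructor
  · intro hx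
    exact hcon x hx
  · intro hx
    rw [Set.mem_singleton_iff.mp hx]
    exact zero_mem_cone Φ

theorem CF_nonempty (hC : cone Φ ≠ {0}) : Nonempty (CF Φ) := by
  obtain ⟨x, hx, hx0⟩ := cone_ne Φ hC
  obtain ⟨δ, hδ, _⟩ := exists_CF Φ hx hx0
  exact ⟨⟨δ, hδ⟩⟩

/-- Negative coordinates of elements of the coset lie in the support of the cone. -/
theorem neg_cov (α : Fin r → ℤ) (β : Fin n → ℤ) (hβ : β ∈ Coset Φ α) (i : Fin n) (hi : β i < 0) :
    ∃ j : CF Φ, 0 < gen Φ j i := by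
  classical
  by_contra hcon
  push Not at hcon
  have : Fintype (CF Φ) := (CF_finite Φ).fintype
  have h1 : ∀ x ∈ cone Φ, x i = 0 := by
    intro x hx
    obtain ⟨y, hy, rfl⟩ := CF_generates Φ x hx
    rw [Finset.sum_apply]
    apply Finset.sum_eq_zero
    intro j _
    have h2 : toReal j.1 i = 0 := le_antisymm (hcon j) (j.2.1.1.1 i)
    simp [h2]
  have h2 : ∀ u ∈ Grp Φ, u i = 0 := by
    intro u hu
    refine AddSubgroup.closure_induction (p := fun u _ => u i = 0) ?_ ?_ ?_ ?_ hu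
    · intro v hv
      have h3 : toReal v ∈ cone Φ := by
        refine ⟨fun i => by simpa [toReal] using hv.1 i, ?_⟩
        funext a
        have := congrFun hv.2 a
        simp only [Matrix.mulVec, dotProduct, Pi.zero_apply] at this
        simp only [Matrix.mulVec, dotProduct, Matrix.map_apply, toReal, Pi.zero_apply]
        exact_mod_cast this
      have h4 := h1 _ h3
      simpa [toReal] using h4
    · rfl
    · intro a b _ _ ha hb
      simp [ha, hb]
    · intro a _ ha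
      simp [ha]
  obtain ⟨u, hu, v, hv, rfl⟩ := hβ
  have h3 := h2 u hu
  have h4 := hv.1 i
  simp only [Pi.add_apply, h3, zero_add] at hi
  omega

end Pool.Agent.Q19.DB
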