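import Pool.Agent.Q19.DB.StepThree

/-!
# From the nerve to a subcomplex of the dual polytope
-/

open Finset Set unitInterval ContinuousMap

namespace Pool.Agent.Q19.DB

variable {A : Type*} [Fintype A] {n : ℕ} (δ : A → Fin n → ℝ) (N : Finset (Fin n))
variable {V : Type*} [Fintype V] (ψ : V → (Fin n → ℝ) →ₗ[ℝ] ℝ)

/-- The cone over a subset of a real vector space placed at height one. -/
def Gh {k : ℕ} (Γ : Set (Fin k → ℝ)) : Set ((Fin k → ℝ) × ℝ) :=
  {p | 0 < p.2 ∧ p.2⁻¹ • p.1 ∈ Γ}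

theorem step_four {k : ℕ} (vtx : V → Fin k → ℝ) (Γ : Set (Fin k → ℝ))
    (hΓ : ∀ x ∈ Γ, ∃ c : V → ℝ, (∀ w, 0 ≤ c w) ∧ ∑ w, c w = 1 ∧ ∑ w, c w • vtx w = x)
    (star : ∀ c : V → ℝ, (∀ w, 0 ≤ c w) → c ≠ 0 →
      ((∑ w, c w)⁻¹ • ∑ w, c w • vtx w ∈ Γ ↔
        ∀ i ∈ N, ∃ j, (∀ w, 0 < c w → ψ w (δ j) = 0) ∧ 0 < δ j i))
    {F : Type*} [AddCommGroup F] [Module ℝ F] [TopologicalSpace F]
    [IsTopologicalAddGroup F] [ContinuousSMul ℝ F] (K' : Set F) :
    Nonempty (Jn (Ah δ N ψ) K' ≃ₕ Jn (Gh Γ) K') := by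
  classical
  obtain ⟨T, s, h1, h2, h3, h4⟩ := weyl' (fun w => ((vtx w, (1 : ℝ)) : (Fin k → ℝ) × ℝ))
  let f : (V → ℝ) → (Fin k → ℝ) × ℝ := fun c => (∑ w, c w • vtx w, ∑ w, c w)
  have hfeq : ∀ c : V → ℝ, ∑ w, c w • ((vtx w, (1 : ℝ)) : (Fin k → ℝ) × ℝ) = f c := by
    intro c
    apply Prod.ext
    · simp [f, Prod.fst_sum]
    · simp [f, Prod.snd_sum]
  have hfc : Continuous f := by
    apply Continuous.prodMk
    · exact continuous_finset_sum _ fun w _ => (continuous_apply w).smul continuous_const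
    · exact continuous_finset_sum _ fun w _ => continuous_apply w
  have hcone : ∀ c : V → ℝ, (∀ w, 0 ≤ c w) → ∀ φ ∈ T, 0 ≤ φ (f c) := by
    intro c hc φ hφ
    rw [← hfeq, map_sum]
    apply Finset.sum_nonneg
    intro w _
    rw [map_smul, smul_eq_mul]
    exact mul_nonneg (hc w) (h4 w φ hφ)
  have hsec : ∀ p, (∀ φ ∈ T, 0 ≤ φ p) → f (s p) = p := by
    intro p hp
    rw [← hfeq]
    exact (h2 p hp).2
  have hGcone : ∀ p ∈ Gh Γ, ∃ c : V → ℝ, (∀ w, 0 ≤ c w) ∧ f c = p := by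
    intro p hp
    obtain ⟨c, h5, h6, h7⟩ := hΓ _ hp.2
    refine ⟨p.2 • c, fun w => mul_nonneg hp.1.le (h5 w), ?_⟩
    apply Prod.ext
    · simp only [f, Pi.smul_apply, smul_eq_mul]
      rw [show (∑ w, (p.2 * c w) • vtx w) = p.2 • ∑ w, c w • vtx w by
        rw [Finset.smul_sum]; simp [smul_smul]]
      rw [h7, smul_smul, mul_inv_cancel₀ hp.1.ne', one_smul]
    · simp only [f, Pi.smul_apply, smul_eq_mul]
      rw [← Finset.mul_sum, h6, mul_one]
  have hsG : ∀ p ∈ Gh Γ, (∀ w, 0 ≤ s p w) ∧ f (s p) = p := by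
    intro p hp
    obtain ⟨c, h5, h6⟩ := hGcone p hp
    have h7 : ∀ φ ∈ T, 0 ≤ φ p := by rw [← h6]; exact hcone c h5
    exact ⟨(h2 p h7).1, hsec p h7⟩
  have hpos : ∀ c : V → ℝ, (∀ w, 0 ≤ c w) → c ≠ 0 → 0 < ∑ w, c w := by
    intro c hc hc0
    obtain ⟨w, hw⟩ := Function.ne_iff.mp hc0
    have : 0 < c w := lt_of_le_of_ne (hc w) (Ne.symm hw)
    exact lt_of_lt_of_le this (Finset.single_le_sum (fun w _ => hc w) (Finset.mem_univ w))
  have hfm : MapsTo f (Ah δ N ψ) (Gh Γ) := by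
    intro c hc
    exact ⟨hpos c hc.1 hc.2.1, (star c hc.1 hc.2.1).mpr hc.2.2⟩
  have hmemA : ∀ c : V → ℝ, (∀ w, 0 ≤ c w) → f c ∈ Gh Γ → c ∈ Ah δ N ψ := by
    intro c hc h
    have hc0 : c ≠ 0 := by
      intro h0
      have := h.1
      simp [f, h0] at this
    exact ⟨hc, hc0, (star c hc hc0).mp h.2⟩
  have hgm : MapsTo s (Gh Γ) (Ah δ N ψ) := by
    intro p hp
    obtain ⟨h5, h6⟩ := hsG p hp
    exact hmemA _ h5 (by rw [h6]; exact hp)
  have hf0 : f 0 = 0 := by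
    apply Prod.ext
    · simp [f]
    · simp [f]
  have hs0 : s 0 = 0 := by
    have := h3 0 le_rfl 0
    simpa using this
  have hflin : ∀ (a b : V → ℝ) (x y : ℝ), f (x • a + y • b) = x • f a + y • f b := by
    intro a b x y
    apply Prod.ext
    · simp [f, add_smul, Finset.sum_add_distrib, Finset.smul_sum, smul_smul]
    · simp [f, Finset.sum_add_distrib, Finset.mul_sum]
  apply Jn_heq f s hfc.continuousOn h1.continuousOn hf0 hs0 hfm hgm
  · intro c hc r h0 hr1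
    have hc' := hgm (hfm hc)
    apply hmemA
    · intro w
      simp only [Pi.add_apply, Pi.smul_apply, smul_eq_mul]
      have := mul_nonneg (show 0 ≤ 1 - r by linarith) (hc.1 w)
      have := mul_nonneg h0 (hc'.1 w)
      linarith
    · rw [hflin, (hsG _ (hfm hc)).2, ← add_smul]
      simpa using hfm hc
  · intro p hp r _ _
    rw [(hsG p hp).2, ← add_smul]
    simpa using hp

/-- Changing the sphere factor by a linear isomorphism. -/
theorem step_five {E F F' : Type*} [AddCommGroup E] [Module ℝ E] [TopologicalSpace E]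
    [IsTopologicalAddGroup E] [ContinuousSMul ℝ E]
    [AddCommGroup F] [Module ℝ F] [TopologicalSpace F]
    [IsTopologicalAddGroup F] [ContinuousSMul ℝ F] [AddCommGroup F'] [Module ℝ F']
    [TopologicalSpace F'] [IsTopologicalAddGroup F'] [ContinuousSMul ℝ F']
    (G' : Set E) (K₁ : Set F) (l : F →ₗ[ℝ] F') (l' : F' →ₗ[ℝ] F) (hl : Continuous l)
    (hl' : Continuous l') (h1 : ∀ u, l' u ∈ K₁) (h2 : ∀ u, l (l' u) = u)
    (h3 : ∀ k ∈ K₁, l' (l k) = k) :
    Nonempty (Jn G' K₁ ≃ₕ Jn G' (Set.univ : Set F')) := by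
  apply heq_of (fun p => (p.1, l p.2)) (fun p => (p.1, l' p.2))
  · exact (continuous_fst.prodMk (hl.comp continuous_snd)).continuousOn
  · exact (continuous_fst.prodMk (hl'.comp continuous_snd)).continuousOn
  · intro p hp
    rcases hp with ⟨h4, h5⟩ | ⟨h4, h5, h6⟩
    · exact Or.inl ⟨h4, Set.mem_univ _⟩
    · refine Or.inr ⟨h4, Set.mem_univ _, ?_⟩
      intro h7
      apply h6
      rw [← h3 _ h5]
      simp only at h7
      rw [h7, map_zero]
  · intro p hp
    rcases hp with ⟨h4, h5⟩ | ⟨h4, h5, h6⟩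
    · exact Or.inl ⟨h4, h1 _⟩
    · refine Or.inr ⟨h4, h1 _, ?_⟩
      intro h7
      apply h6
      rw [← h2 p.2]
      simp only at h7
      rw [h7, map_zero]
  · intro p hp r _ _
    have h4 : p.2 ∈ K₁ := by
      rcases hp with ⟨_, h5⟩ | ⟨_, h5, _⟩
      · exact h5
      · exact h5
    have : ((p.1, l' (l p.2)) : E × F) = p := by rw [h3 _ h4]
    simp only [this]
    rw [← add_smul]
    simpa using hp
  · intro p hp r _ _
    have : ((p.1, l (l' p.2)) : E × F') = p := by rw [h2]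
    simp only [this]
    rw [← add_smul]
    simpa using hp

/-- The normalised model of the join. -/
def Nm {k : ℕ} (Γ : Set (Fin k → ℝ)) (m : ℕ) : Set (((Fin k → ℝ) × ℝ) × (Fin m → ℝ)) :=
  {p | p ∈ Jn (Gh Γ) (Set.univ : Set (Fin m → ℝ)) ∧ p.1.2 + ∑ i, |p.2 i| = 1}

theorem step_six {k : ℕ} (Γ : Set (Fin k → ℝ)) (m : ℕ) :
    Nonempty (Nm Γ m ≃ₕ Jn (Gh Γ) (Set.univ : Set (Fin m → ℝ))) := by
  apply normalize (Jn (Gh Γ) (Set.univ : Set (Fin m → ℝ))) (fun p => p.1.2 + ∑ i, |p.2 i|)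
  · apply Continuous.continuousOn
    apply (continuous_snd.comp continuous_fst).add
    apply continuous_finset_sum
    intro i _
    exact ((continuous_apply i).comp continuous_snd).abs
  · intro p hp
    have h0 : 0 ≤ ∑ i, |p.2 i| := Finset.sum_nonneg fun i _ => abs_nonneg _
    rcases hp with ⟨h4, _⟩ | ⟨h4, _, h6⟩
    · have := h4.1
      linarith
    · obtain ⟨i, hi⟩ := Function.ne_iff.mp h6
      have h7 : 0 < |p.2 i| := abs_pos.mpr hi
      have h8 : |p.2 i| ≤ ∑ i, |p.2 i| :=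
        Finset.single_le_sum (f := fun i => |p.2 i|) (fun i _ => abs_nonneg _) (Finset.mem_univ i)
      have h9 : p.1.2 = 0 := by rw [h4]; rfl
      rw [h9]
      linarith
  · intro p hp c hc
    rcases hp with ⟨h4, _⟩ | ⟨h4, _, h6⟩
    · left
      refine ⟨⟨mul_pos hc h4.1, ?_⟩, Set.mem_univ _⟩
      have h5 : (c • p).1.2⁻¹ • (c • p).1.1 = p.1.2⁻¹ • p.1.1 := by
        simp only [Prod.smul_fst, Prod.smul_snd, smul_smul, smul_eq_mul]
        congr 1
        have := h4.1.ne'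
        field_simp
      rw [h5]
      exact h4.2
    · right
      refine ⟨by rw [Prod.smul_fst, h4, smul_zero], Set.mem_univ _, ?_⟩
      rw [Prod.smul_snd]
      exact smul_ne_zero hc.ne' h6
  · intro p _ c hc
    simp only [Prod.smul_fst, Prod.smul_snd, smul_eq_mul, Pi.smul_apply, abs_mul, abs_of_pos hc]
    rw [← Finset.mul_sum]
    ring

end Pool.Agent.Q19.DB
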