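import Pool.Agent.Q19.DB.Hom

/-!
# Combinatorial Alexander duality for the complex, by explicit maps
-/

open Finset Set unitInterval ContinuousMap

namespace Pool.Agent.Q19.DB

variable {A : Type*} [Fintype A] {n : ℕ} (δ : A → Fin n → ℝ) (N : Finset (Fin n))

/-- The cone over the complex: nonnegative nonzero vectors whose zero set covers `N`. -/
def Kh : Set (A → ℝ) := {z | (∀ j, 0 ≤ z j) ∧ (∃ j, z j ≠ 0) ∧ ∀ i ∈ N, ∃ j, z j = 0 ∧ 0 < δ j i}

/-- Nonnegative vectors with a zero coordinate whose support covers `N`. -/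
def Yh : Set (A → ℝ) := {y | (∀ j, 0 ≤ y j) ∧ (∃ j, y j = 0) ∧ ∀ i ∈ N, ∃ j, 0 < y j ∧ 0 < δ j i}

/-- maximum coordinate -/
noncomputable def mx [Nonempty A] (z : A → ℝ) : ℝ := Finset.univ.sup' Finset.univ_nonempty z

theorem mx_cont [Nonempty A] : Continuous (mx : (A → ℝ) → ℝ) := by
  unfold mx
  exact Continuous.finset_sup'_apply _ (fun i _ => continuous_apply i)

theorem le_mx [Nonempty A] (z : A → ℝ) (j : A) : z j ≤ mx z :=
  Finset.le_sup' z (Finset.mem_univ j)

theorem exists_mx [Nonempty A] (z : A → ℝ) : ∃ j, z j = mx z := by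
  obtain ⟨j, _, hj⟩ := Finset.exists_mem_eq_sup' (Finset.univ_nonempty (α := A)) z
  exact ⟨j, hj.symm⟩

theorem mx_eq [Nonempty A] (z : A → ℝ) (c : ℝ) (h1 : ∀ j, z j ≤ c) (j : A) (h2 : z j = c) :
    mx z = c :=
  le_antisymm (Finset.sup'_le _ _ (fun j _ => h1 j)) (h2 ▸ le_mx z j)

open Classical in
/-- threshold -/
noncomputable def tau [Nonempty A] (hN : N.Nonempty) (y : A → ℝ) : ℝ :=
  N.inf' hN (fun i => mx (fun j => if 0 < δ j i then y j else 0))

theorem tau_cont [Nonempty A] (hN : N.Nonempty) : Continuous (tau δ N hN) := by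
  unfold tau
  apply Continuous.finset_inf'_apply
  intro i _
  apply mx_cont.comp
  apply continuous_pi
  intro j
  by_cases h : 0 < δ j i
  · simpa [h] using continuous_apply j
  · simpa [h] using continuous_const

theorem tau_le [Nonempty A] (hN : N.Nonempty) (y : A → ℝ) (i : Fin n) (hi : i ∈ N)
    (hτ : 0 < tau δ N hN y) : ∃ j, 0 < δ j i ∧ tau δ N hN y ≤ y j := by
  classical
  have h1 : tau δ N hN y ≤ mx (fun j => if 0 < δ j i then y j else 0) :=
    Finset.inf'_le _ hi
  obtain ⟨j, hj⟩ := exists_mx (fun j => if 0 < δ j i then y j else 0)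
  by_cases h : 0 < δ j i
  · simp only [h, if_true] at hj
    exact ⟨j, h, by rw [hj]; exact h1⟩
  · simp only [h, if_false] at hj
    rw [← hj] at h1
    linarith

theorem tau_pos [Nonempty A] (hN : N.Nonempty) (y : A → ℝ)
    (hy : ∀ i ∈ N, ∃ j, 0 < y j ∧ 0 < δ j i) : 0 < tau δ N hN y := by
  classical
  unfold tau
  rw [Finset.lt_inf'_iff]
  intro i hi
  obtain ⟨j, h1, h2⟩ := hy i hi
  have h3 := le_mx (fun j => if 0 < δ j i then y j else 0) j
  simp only [h2, if_true] at h3
  linarith

theorem step_one [Nonempty A] (hN : N.Nonempty) : Nonempty (Kh δ N ≃ₕ Yh δ N) := by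
  classical
  have key1 : ∀ z ∈ Kh δ N, tau δ N hN (fun j => mx z - z j) = mx z := by
    intro z hz
    obtain ⟨h1, ⟨j0, h2⟩, h3⟩ := hz
    have hpos : 0 < mx z := lt_of_lt_of_le (lt_of_le_of_ne (h1 j0) (Ne.symm h2)) (le_mx z j0)
    have h4 : ∀ i ∈ N, mx (fun j => if 0 < δ j i then mx z - z j else 0) = mx z := by
      intro i hi
      obtain ⟨j, h5, h6⟩ := h3 i hi
      apply mx_eq _ _ _ j
      · simp [h6, h5]
      · intro j'
        split_ifs
        · linarith [h1 j']
        · exact hpos.le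
    unfold tau
    apply le_antisymm
    · obtain ⟨i, hi⟩ := hN
      have := Finset.inf'_le (fun i => mx (fun j => if 0 < δ j i then mx z - z j else 0)) hi
      rw [h4 i hi] at this
      exact this
    · apply Finset.le_inf'
      intro i hi
      rw [h4 i hi]
  have key2 : ∀ y ∈ Yh δ N, mx (fun j => max (tau δ N hN y - y j) 0) = tau δ N hN y := by
    intro y hy
    obtain ⟨h1, ⟨j0, h2⟩, h3⟩ := hy
    have hpos := tau_pos δ N hN y h3
    apply mx_eq _ _ _ j0
    · simp [h2, hpos.le]
    · intro j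
      exact max_le (by linarith [h1 j]) hpos.le
  apply heq_of (fun z j => mx z - z j) (fun y j => max (tau δ N hN y - y j) 0)
  · apply Continuous.continuousOn
    exact continuous_pi fun j => mx_cont.sub (continuous_apply j)
  · apply Continuous.continuousOn
    exact continuous_pi fun j => (((tau_cont δ N hN).sub (continuous_apply j))).max continuous_const
  · intro z hz
    obtain ⟨h1, ⟨j0, h2⟩, h3⟩ := hz
    have hpos : 0 < mx z := lt_of_lt_of_le (lt_of_le_of_ne (h1 j0) (Ne.symm h2)) (le_mx z j0)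
    refine ⟨fun j => sub_nonneg.mpr (le_mx z j), ?_, ?_⟩
    · obtain ⟨j, hj⟩ := exists_mx z
      exact ⟨j, by simp [hj]⟩
    · intro i hi
      obtain ⟨j, h5, h6⟩ := h3 i hi
      exact ⟨j, by simp [h5, hpos], h6⟩
  · intro y hy
    obtain ⟨h1, ⟨j0, h2⟩, h3⟩ := hy
    have hpos := tau_pos δ N hN y h3
    refine ⟨fun j => le_max_right _ _, ⟨j0, ?_⟩, ?_⟩
    · simp only [h2, sub_zero]
      rw [max_eq_left hpos.le]
      exact hpos.ne'
    · intro i hi
      obtain ⟨j, h5, h6⟩ := tau_le δ N hN y i hi hpos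
      exact ⟨j, by simp [h6], h5⟩
  · intro z hz s _ _
    have h1 : (fun j => max (tau δ N hN (fun j => mx z - z j) - (mx z - z j)) 0) = z := by
      rw [key1 z hz]
      funext j
      have := hz.1 j
      simp [this]
    simp only [h1]
    rw [← add_smul]
    simpa using hz
  · intro y hy s h0 h1
    have h2 : (fun j => mx (fun j => max (tau δ N hN y - y j) 0) - max (tau δ N hN y - y j) 0)
        = fun j => min (y j) (tau δ N hN y) := by
      rw [key2 y hy]
      funext j
      rcases le_total (y j) (tau δ N hN y) with h | h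
      · rw [min_eq_left h, max_eq_left (by linarith)]
        ring
      · rw [min_eq_right h, max_eq_right (by linarith)]
        ring
    simp only [h2]
    obtain ⟨h3, ⟨j0, h4⟩, h5⟩ := hy
    have hpos := tau_pos δ N hN y h5
    refine ⟨fun j => ?_, ⟨j0, ?_⟩, ?_⟩
    · simp only [Pi.add_apply, Pi.smul_apply, smul_eq_mul]
      have := h3 j
      have h6 : 0 ≤ min (y j) (tau δ N hN y) := le_min this hpos.le
      have h7 : 0 ≤ 1 - s := by linarith
      positivity
    · simp [h4, hpos.le]
    · intro i hi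
      obtain ⟨j, h6, h7⟩ := h5 i hi
      refine ⟨j, ?_, h7⟩
      simp only [Pi.add_apply, Pi.smul_apply, smul_eq_mul]
      have h8 : 0 < min (y j) (tau δ N hN y) := lt_min h6 hpos
      rcases eq_or_lt_of_le h0 with h | h
      · rw [← h]; simpa using h6
      · have h9 := mul_pos h h8
        have h10 : 0 ≤ (1 - s) * y j := mul_nonneg (by linarith) h6.le
        linarith

end Pool.Agent.Q19.DB
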