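import Pool.Agent.Q19.DB.StepTwo

/-!
# Replacing the boundary complement of a polytope by the nerve of its facets
-/

open Finset Set unitInterval ContinuousMap

namespace Pool.Agent.Q19.DB

variable {A : Type*} [Fintype A] {n : ℕ} (δ : A → Fin n → ℝ) (N : Finset (Fin n))
variable {V : Type*} [Fintype V] (ψ : V → (Fin n → ℝ) →ₗ[ℝ] ℝ)

/-- The cone over the nerve. -/
def Ah : Set (V → ℝ) := {c | (∀ w, 0 ≤ c w) ∧ c ≠ 0 ∧
  ∀ i ∈ N, ∃ j, (∀ w, 0 < c w → ψ w (δ j) = 0) ∧ 0 < δ j i}

/-- Admissible sets. -/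
def Adm (B : Finset V) : Prop := ∀ i ∈ N, ∃ j, (∀ w ∈ B, ψ w (δ j) = 0) ∧ 0 < δ j i

theorem Adm_mono {B B' : Finset V} (h : B ⊆ B') (hB : Adm δ N ψ B') : Adm δ N ψ B := by
  intro i hi
  obtain ⟨j, h1, h2⟩ := hB i hi
  exact ⟨j, fun w hw => h1 w (h hw), h2⟩

open Classical in
/-- generators on the face -/
noncomputable def xB (B : Finset V) : Fin n → ℝ :=
  ∑ j ∈ Finset.univ.filter (fun j => ∀ w ∈ B, ψ w (δ j) = 0), δ j

/-- coefficient -/
noncomputable def cf [DecidableEq V] (B : Finset V) (c : V → ℝ) : ℝ :=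
  (∏ w ∈ B, c w) * ∏ w ∈ Bᶜ, ∑ w', max (c w' - c w) 0

theorem step_three [Nonempty V] (hδ : ∀ j i, 0 ≤ δ j i) (hN : N.Nonempty)
    (hNc : ∀ i ∈ N, ∃ j, 0 < δ j i)
    (hψ : ∀ w j, 0 ≤ ψ w (δ j)) (hbd : ∀ x ∈ Cn δ, x ∈ Bd δ ↔ ∃ w, ψ w x = 0)
    (hc : ¬ Adm δ N ψ Finset.univ) {F : Type*} [AddCommGroup F] [Module ℝ F] [TopologicalSpace F]
    [IsTopologicalAddGroup F] [ContinuousSMul ℝ F] (K' : Set F) :
    Nonempty (Jn (G δ N) K' ≃ₕ Jn (Ah δ N ψ) K') := by
  classical
  have hψC : ∀ w, ∀ x ∈ Cn δ, 0 ≤ ψ w x := by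
    rintro w x ⟨y, hy, rfl⟩
    rw [map_sum]
    apply Finset.sum_nonneg
    intro j _
    rw [map_smul, smul_eq_mul]
    exact mul_nonneg (hy j) (hψ w j)
  -- F1
  have F1 : ∀ x ∈ Cn δ, (∀ i ∈ N, 0 < x i) → ∀ B : Finset V, (∀ w ∈ B, ψ w x = 0) →
      Adm δ N ψ B := by
    rintro x ⟨y, hy, rfl⟩ hx B hB i hi
    have h1 := hx i hi
    simp only [Finset.sum_apply, Pi.smul_apply, smul_eq_mul] at h1
    obtain ⟨j, _, hj⟩ := Finset.exists_lt_of_sum_lt (s := Finset.univ) (f := fun _ => (0 : ℝ))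
      (g := fun j => y j * δ j i) (by simpa using h1)
    have hyj : 0 < y j := by
      rcases eq_or_lt_of_le (hy j) with h | h
      · rw [← h] at hj; simp at hj
      · exact h
    have hδj : 0 < δ j i := by
      rcases eq_or_lt_of_le (hδ j i) with h | h
      · rw [← h] at hj; simp at hj
      · exact h
    refine ⟨j, ?_, hδj⟩
    intro w hw
    have h2 := hB w hw
    rw [map_sum] at h2
    rw [Finset.sum_eq_zero_iff_of_nonneg] at h2
    · have h3 := h2 j (Finset.mem_univ j)
      rw [map_smul, smul_eq_mul] at h3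
      rcases mul_eq_zero.mp h3 with h4 | h4
      · exact absurd h4 hyj.ne'
      · exact h4
    · intro j _
      rw [map_smul, smul_eq_mul]
      exact mul_nonneg (hy j) (hψ w j)
  let NA : Finset (Finset V) := Finset.univ.filter (fun B => ¬ Adm δ N ψ B)
  have hNA : NA.Nonempty := ⟨Finset.univ, Finset.mem_filter.mpr ⟨Finset.mem_univ _, hc⟩⟩
  let q : ℝ := (Fintype.card V : ℝ) + 1
  have hq : 0 < q := by positivity
  let ep : (Fin n → ℝ) → ℝ := fun x => q⁻¹ * NA.inf' hNA (fun B => ∑ w ∈ B, ψ w x)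
  have hepc : Continuous ep := by
    apply Continuous.mul continuous_const
    apply Continuous.finset_inf'_apply
    intro B _
    apply continuous_finset_sum
    intro w _
    exact (ψ w).continuous_of_finiteDimensional
  have hep0 : ep 0 = 0 := by
    simp only [ep, map_zero, Finset.sum_const_zero]
    simp
  have hepG : ∀ x ∈ Cn δ, (∀ i ∈ N, 0 < x i) → 0 < ep x := by
    intro x hx hxi
    apply mul_pos (inv_pos.mpr hq)
    rw [Finset.lt_inf'_iff]
    intro B hB
    apply lt_of_le_of_ne (Finset.sum_nonneg fun w _ => hψC w x hx)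
    intro h
    have h1 := (Finset.sum_eq_zero_iff_of_nonneg (fun w _ => hψC w x hx)).mp h.symm
    exact (Finset.mem_filter.mp hB).2 (F1 x hx hxi B h1)
  have F3 : ∀ x, 0 < ep x → Adm δ N ψ (Finset.univ.filter (fun w => ψ w x < ep x)) := by
    intro x hx
    by_contra hcon
    have h1 : NA.inf' hNA (fun B => ∑ w ∈ B, ψ w x) ≤
        ∑ w ∈ Finset.univ.filter (fun w => ψ w x < ep x), ψ w x :=
      Finset.inf'_le (fun B => ∑ w ∈ B, ψ w x) (Finset.mem_filter.mpr ⟨Finset.mem_univ _, hcon⟩)
    have h2 : ∑ w ∈ Finset.univ.filter (fun w => ψ w x < ep x), ψ w x ≤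
        (Fintype.card V : ℝ) * ep x := by
      calc _ ≤ ∑ w ∈ Finset.univ.filter (fun w => ψ w x < ep x), ep x :=
            Finset.sum_le_sum fun w hw => (Finset.mem_filter.mp hw).2.le
        _ ≤ (Fintype.card V : ℝ) * ep x := by
            rw [Finset.sum_const, nsmul_eq_mul]
            apply mul_le_mul_of_nonneg_right _ hx.le
            exact_mod_cast Finset.card_le_univ _
    have h3 : q * ep x = NA.inf' hNA (fun B => ∑ w ∈ B, ψ w x) := by
      simp only [ep]
      rw [← mul_assoc, mul_inv_cancel₀ hq.ne', one_mul]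
    have h4 : q * ep x = (Fintype.card V : ℝ) * ep x + ep x := by simp only [q]; ring
    linarith
  let g : (Fin n → ℝ) → ℝ := fun x => ∑ i, x i
  have hgc : Continuous g := continuous_finset_sum _ fun i _ => continuous_apply i
  have hgpos : ∀ x ∈ Cn δ, (∀ i ∈ N, 0 < x i) → 0 < g x := by
    intro x hx hxi
    obtain ⟨i, hi⟩ := hN
    exact lt_of_lt_of_le (hxi i hi)
      (Finset.single_le_sum (fun i _ => Cn_nonneg δ hδ hx i) (Finset.mem_univ i))
  have hδC : ∀ j, δ j ∈ Cn δ := by
    intro j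
    refine ⟨Pi.single j 1, ?_, ?_⟩
    · intro j'
      by_cases h : j' = j
      · subst h; simp
      · simp [h]
    · simp [Finset.sum_eq_single j, Pi.single_apply]
  have hCadd : ∀ x ∈ Cn δ, ∀ y ∈ Cn δ, x + y ∈ Cn δ := by
    rintro x ⟨a, ha, rfl⟩ y ⟨b, hb, rfl⟩
    refine ⟨a + b, fun j => add_nonneg (ha j) (hb j), ?_⟩
    simp [add_smul, Finset.sum_add_distrib]
  have h0C : (0 : Fin n → ℝ) ∈ Cn δ := ⟨0, fun j => le_rfl, by simp⟩
  have hCsum' : ∀ (s : Finset (Finset V)) (u : Finset V → Fin n → ℝ), (∀ i ∈ s, u i ∈ Cn δ) →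
      ∑ i ∈ s, u i ∈ Cn δ := by
    intro s u hu
    exact Finset.sum_induction u (· ∈ Cn δ) (fun a b ha hb => hCadd a ha b hb) h0C hu
  have hxBC : ∀ B, xB δ ψ B ∈ Cn δ := by
    intro B
    exact Finset.sum_induction δ (· ∈ Cn δ) (fun a b ha hb => hCadd a ha b hb) h0C
      (fun j _ => hδC j)
  have hxBψ : ∀ B, ∀ w ∈ B, ψ w (xB δ ψ B) = 0 := by
    intro B w hw
    unfold xB
    rw [map_sum]
    apply Finset.sum_eq_zero
    intro j hj
    exact (Finset.mem_filter.mp hj).2 w hw
  have hxBmono : ∀ B S : Finset V, B ⊆ S → ∀ w, ψ w (xB δ ψ S) ≤ ψ w (xB δ ψ B) := by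
    intro B S hBS w
    unfold xB
    rw [map_sum, map_sum]
    apply Finset.sum_le_sum_of_subset_of_nonneg
    · intro j hj
      rw [Finset.mem_filter] at hj ⊢
      exact ⟨hj.1, fun w hw => hj.2 w (hBS hw)⟩
    · intro j _ _
      exact hψ w j
  have hxBi : ∀ S, Adm δ N ψ S → ∀ i ∈ N, 0 < xB δ ψ S i := by
    intro S hS i hi
    obtain ⟨j, h1, h2⟩ := hS i hi
    unfold xB
    rw [Finset.sum_apply]
    exact lt_of_lt_of_le h2 (Finset.single_le_sum (f := fun j => δ j i) (fun j _ => hδ j i)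
      (Finset.mem_filter.mpr ⟨Finset.mem_univ j, h1⟩))
  -- F5
  obtain ⟨η, hη0, hη⟩ : ∃ η : ℝ, 0 < η ∧ ∀ B : Finset V, ∀ w : V, ψ w (xB δ ψ B) = 0 ∨
      η * g (xB δ ψ B) ≤ ψ w (xB δ ψ B) := by
    have h1 : ∀ᶠ η in nhdsWithin (0 : ℝ) (Set.Ioi 0), ∀ B : Finset V, ∀ w : V,
        ψ w (xB δ ψ B) = 0 ∨ η * g (xB δ ψ B) ≤ ψ w (xB δ ψ B) := by
      rw [Filter.eventually_all]
      intro B
      rw [Filter.eventually_all]
      intro w
      by_cases h : ψ w (xB δ ψ B) = 0
      · exact Filter.Eventually.of_forall fun _ => Or.inl h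
      · have hp : 0 < ψ w (xB δ ψ B) := lt_of_le_of_ne (hψC w _ (hxBC B)) (Ne.symm h)
        have h2 : Filter.Tendsto (fun η : ℝ => η * g (xB δ ψ B)) (nhdsWithin (0 : ℝ) (Set.Ioi 0))
            (nhds (0 * g (xB δ ψ B))) :=
          ((continuous_id.mul continuous_const).tendsto 0).mono_left nhdsWithin_le_nhds
        rw [zero_mul] at h2
        filter_upwards [h2.eventually (Iio_mem_nhds hp)] with η hη
        exact Or.inr (le_of_lt hη)
    have h2 : ∀ᶠ η in nhdsWithin (0 : ℝ) (Set.Ioi 0), 0 < η := self_mem_nhdsWithin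
    obtain ⟨η, h3, h4⟩ := (h1.and h2).exists
    exact ⟨η, h4, h3⟩
  let mm : (Fin n → ℝ) → ℝ := fun x => min (ep x) (η * g x)
  let f : (Fin n → ℝ) → V → ℝ := fun x w => max (mm x - ψ w x) 0
  let P : (V → ℝ) → Fin n → ℝ := fun c => ∑ B : Finset V, cf B c • xB δ ψ B
  have hmmc : Continuous mm := hepc.min (continuous_const.mul hgc)
  have hfc : Continuous f := by
    apply continuous_pi
    intro w
    exact (hmmc.sub (ψ w).continuous_of_finiteDimensional).max continuous_const
  have hcfc : ∀ B : Finset V, Continuous (cf B : (V → ℝ) → ℝ) := by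
    intro B
    unfold cf
    apply Continuous.mul
    · exact continuous_finset_prod _ fun w _ => continuous_apply w
    · apply continuous_finset_prod
      intro w _
      apply continuous_finset_sum
      intro w' _
      exact ((continuous_apply w').sub (continuous_apply w)).max continuous_const
  have hPc : Continuous P := by
    apply continuous_finset_sum
    intro B _
    exact (hcfc B).smul continuous_const
  have hf0 : f 0 = 0 := by
    funext w
    simp [f, mm, hep0, g]
  have hP0 : P 0 = 0 := by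
    apply Finset.sum_eq_zero
    intro B _
    have : cf B (0 : V → ℝ) = 0 := by
      unfold cf
      rcases B.eq_empty_or_nonempty with h | h
      · subst h
        obtain ⟨w⟩ := ‹Nonempty V›
        apply mul_eq_zero_of_right
        apply Finset.prod_eq_zero (i := w) (by simp)
        simp
      · obtain ⟨w, hw⟩ := h
        apply mul_eq_zero_of_left
        exact Finset.prod_eq_zero hw rfl
    rw [this, zero_smul]
  -- coefficients
  have hcf0 : ∀ c : V → ℝ, (∀ w, 0 ≤ c w) → ∀ B, 0 ≤ cf B c := by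
    intro c hc B
    apply mul_nonneg
    · exact Finset.prod_nonneg fun w _ => hc w
    · exact Finset.prod_nonneg fun w _ => Finset.sum_nonneg fun w' _ => le_max_right _ _
  have hcfB : ∀ c : V → ℝ, ∀ B, cf B c ≠ 0 → (∀ w ∈ B, c w ≠ 0) ∧
      ∀ w, (∀ w', c w' ≤ c w) → w ∈ B := by
    intro c B h
    obtain ⟨h1, h2⟩ := mul_ne_zero_iff.mp h
    refine ⟨fun w hw => Finset.prod_ne_zero_iff.mp h1 w hw, ?_⟩
    intro w hw
    by_contra hwB
    apply Finset.prod_ne_zero_iff.mp h2 w (Finset.mem_compl.mpr hwB)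
    apply Finset.sum_eq_zero
    intro w' _
    exact max_eq_right (by linarith [hw w'])
  have hcfS : ∀ c : V → ℝ, (∀ w, 0 ≤ c w) → c ≠ 0 →
      0 < cf (Finset.univ.filter (fun w => 0 < c w)) c := by
    intro c hc hc0
    apply mul_pos
    · apply Finset.prod_pos
      intro w hw
      exact (Finset.mem_filter.mp hw).2
    · apply Finset.prod_pos
      intro w hw
      have h1 : c w = 0 := by
        rw [Finset.mem_compl, Finset.mem_filter] at hw
        push Not at hw
        exact le_antisymm (hw (Finset.mem_univ w)) (hc w)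
      obtain ⟨w1, hw1⟩ := Function.ne_iff.mp hc0
      have h2 : 0 < c w1 := lt_of_le_of_ne (hc w1) (Ne.symm hw1)
      apply lt_of_lt_of_le _ (Finset.single_le_sum (f := fun w' => max (c w' - c w) 0)
        (fun w' _ => le_max_right _ _) (Finset.mem_univ w1))
      exact lt_max_of_lt_left (by linarith)
  have hAS : ∀ c ∈ Ah δ N ψ, Adm δ N ψ (Finset.univ.filter (fun w => 0 < c w)) := by
    intro c hc i hi
    obtain ⟨j, h1, h2⟩ := hc.2.2 i hi
    exact ⟨j, fun w hw => h1 w (Finset.mem_filter.mp hw).2, h2⟩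
  have hPC : ∀ c : V → ℝ, (∀ w, 0 ≤ c w) → P c ∈ Cn δ := by
    intro c hc
    apply hCsum'
    intro B _
    exact Cn_smul δ (hxBC B) (hcf0 c hc B)
  have hPi : ∀ c ∈ Ah δ N ψ, ∀ i ∈ N, 0 < P c i := by
    intro c hc i hi
    simp only [P, Finset.sum_apply, Pi.smul_apply, smul_eq_mul]
    have h1 := mul_pos (hcfS c hc.1 hc.2.1) (hxBi _ (hAS c hc) i hi)
    exact lt_of_lt_of_le h1 (Finset.single_le_sum (f := fun B => cf B c * xB δ ψ B i)
      (fun B _ => mul_nonneg (hcf0 c hc.1 B) (Cn_nonneg δ hδ (hxBC B) i)) (Finset.mem_univ _))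
  have hPψ : ∀ c : V → ℝ, ∀ w, (∀ w', c w' ≤ c w) → ψ w (P c) = 0 := by
    intro c w hw
    simp only [P]
    rw [map_sum]
    apply Finset.sum_eq_zero
    intro B _
    rw [map_smul, smul_eq_mul]
    by_cases h : cf B c = 0
    · rw [h, zero_mul]
    · rw [hxBψ B w ((hcfB c B h).2 w hw), mul_zero]
  have hfG : ∀ x ∈ G δ N, 0 < mm x := by
    intro x hx
    exact lt_min (hepG x hx.1.1 hx.2) (mul_pos hη0 (hgpos x hx.1.1 hx.2))
  have hPm : MapsTo P (Ah δ N ψ) (G δ N) := by
    intro c hc
    have h1 := hPC c hc.1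
    refine ⟨?_, hPi c hc⟩
    rw [hbd _ h1]
    obtain ⟨w, hw⟩ := exists_mx c
    exact ⟨w, hPψ c w (fun w' => by rw [hw]; exact le_mx c w')⟩
  have hfm : MapsTo f (G δ N) (Ah δ N ψ) := by
    intro x hx
    have h1 := hfG x hx
    have h2 := F3 x (hepG x hx.1.1 hx.2)
    refine ⟨fun w => le_max_right _ _, ?_, ?_⟩
    · obtain ⟨w, hw⟩ := (hbd x hx.1.1).mp hx.1
      intro h
      have h3 := congrFun h w
      simp only [f, hw, sub_zero, Pi.zero_apply] at h3
      rw [max_eq_left h1.le] at h3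
      linarith
    · intro i hi
      obtain ⟨j, h3, h4⟩ := h2 i hi
      refine ⟨j, ?_, h4⟩
      intro w hw
      apply h3 w
      rw [Finset.mem_filter]
      refine ⟨Finset.mem_univ w, ?_⟩
      have h5 : 0 < mm x - ψ w x := by
        by_contra hcon
        simp only [f] at hw
        rw [max_eq_right (not_lt.mp hcon)] at hw
        exact lt_irrefl _ hw
      have h6 : mm x ≤ ep x := min_le_left _ _
      linarith
  apply Jn_heq f P hfc.continuousOn hPc.continuousOn hf0 hP0 hfm hPm
  · intro x hx s h0 h1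
    have hx' := hPm (hfm hx)
    refine ⟨?_, ?_⟩
    · have hC : (1 - s) • x + s • P (f x) ∈ Cn δ :=
        hCadd _ (Cn_smul δ hx.1.1 (by linarith)) _ (Cn_smul δ hx'.1.1 h0)
      rw [hbd _ hC]
      obtain ⟨w, hw⟩ := (hbd x hx.1.1).mp hx.1
      refine ⟨w, ?_⟩
      rw [map_add, map_smul, map_smul, hw]
      have : ψ w (P (f x)) = 0 := by
        apply hPψ
        intro w'
        simp only [f]
        apply max_le_max _ le_rfl
        rw [hw]
        linarith [hψC w' x hx.1.1]
      rw [this]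
      simp
    · intro i hi
      simp only [Pi.add_apply, Pi.smul_apply, smul_eq_mul]
      have h2 := hx.2 i hi
      have h3 := hx'.2 i hi
      rcases eq_or_lt_of_le h0 with h | h
      · rw [← h]; simpa using h2
      · have h4 := mul_pos h h3
        have h5 : 0 ≤ (1 - s) * x i := mul_nonneg (by linarith) h2.le
        linarith
  · intro c hc s h0 h1
    have hc' := hfm (hPm hc)
    set S := Finset.univ.filter (fun w => 0 < c w) with hS
    have hkey : ∀ w, 0 < f (P c) w → ψ w (xB δ ψ S) = 0 := by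
      intro w hw
      by_contra hne
      have hpos : 0 < ψ w (xB δ ψ S) := lt_of_le_of_ne (hψC w _ (hxBC S)) (Ne.symm hne)
      have h2 : η * g (P c) ≤ ψ w (P c) := by
        simp only [P, g]
        rw [map_sum]
        have h3 : η * ∑ i, (∑ B : Finset V, cf B c • xB δ ψ B) i =
            ∑ B : Finset V, cf B c * (η * ∑ i, xB δ ψ B i) := by
          simp only [Finset.sum_apply, Pi.smul_apply, smul_eq_mul]
          rw [Finset.sum_comm, Finset.mul_sum]
          apply Finset.sum_congr rfl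
          intro B _
          rw [← Finset.mul_sum]
          ring
        rw [h3]
        apply Finset.sum_le_sum
        intro B _
        rw [map_smul, smul_eq_mul]
        by_cases h : cf B c = 0
        · rw [h]; simp
        · apply mul_le_mul_of_nonneg_left _ (hcf0 c hc.1 B)
          have hBS : B ⊆ S := by
            intro w1 hw1
            rw [hS, Finset.mem_filter]
            exact ⟨Finset.mem_univ _, lt_of_le_of_ne (hc.1 w1) (Ne.symm ((hcfB c B h).1 w1 hw1))⟩
          rcases hη B w with h4 | h4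
          · have := hxBmono B S hBS w
            rw [h4] at this
            linarith
          · exact h4
      have h3 : f (P c) w = 0 := by
        simp only [f]
        apply max_eq_right
        have : mm (P c) ≤ η * g (P c) := min_le_right _ _
        linarith
      rw [h3] at hw
      exact lt_irrefl _ hw
    have hnn : ∀ w, 0 ≤ ((1 - s) • c + s • f (P c)) w := by
      intro w
      simp only [Pi.add_apply, Pi.smul_apply, smul_eq_mul]
      have := mul_nonneg (show 0 ≤ 1 - s by linarith) (hc.1 w)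
      have := mul_nonneg h0 (hc'.1 w)
      linarith
    refine ⟨hnn, ?_, ?_⟩
    · intro h
      rcases eq_or_lt_of_le h0 with hs | hs
      · rw [← hs] at h
        simp at h
        exact hc.2.1 h
      · obtain ⟨w1, hw1⟩ := Function.ne_iff.mp hc'.2.1
        have h2 : 0 < f (P c) w1 := lt_of_le_of_ne (hc'.1 w1) (Ne.symm hw1)
        have h3 := congrFun h w1
        simp only [Pi.add_apply, Pi.smul_apply, smul_eq_mul, Pi.zero_apply] at h3
        have := mul_nonneg (show 0 ≤ 1 - s by linarith) (hc.1 w1)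
        have := mul_pos hs h2
        linarith
    · intro i hi
      obtain ⟨j, h2, h3⟩ := hAS c hc i hi
      refine ⟨j, ?_, h3⟩
      intro w hw
      simp only [Pi.add_apply, Pi.smul_apply, smul_eq_mul] at hw
      by_cases h4 : 0 < c w
      · exact h2 w (Finset.mem_filter.mpr ⟨Finset.mem_univ w, h4⟩)
      · have h5 : c w = 0 := le_antisymm (not_lt.mp h4) (hc.1 w)
        rw [h5, mul_zero, zero_add] at hw
        have h6 : 0 < f (P c) w := by
          rcases eq_or_lt_of_le (hc'.1 w) with h | h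
          · rw [← h] at hw; simp at hw
          · exact h
        have h7 := hkey w h6
        unfold xB at h7
        rw [map_sum, Finset.sum_eq_zero_iff_of_nonneg (fun j _ => hψ w j)] at h7
        exact h7 j (Finset.mem_filter.mpr ⟨Finset.mem_univ j, h2⟩)

end Pool.Agent.Q19.DB
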