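import Pool.Agent.Q19.DB.StepOne
import Pool.Agent.Q19.DB.Cone

/-!
# The dual complement is a join with the sphere of the space of linear relations
-/

open Finset Set unitInterval ContinuousMap

namespace Pool.Agent.Q19.DB

variable {A : Type*} [Fintype A] {n : ℕ} (δ : A → Fin n → ℝ) (N : Finset (Fin n))

/-- The cone generated by the vectors. -/
def Cn : Set (Fin n → ℝ) := {x | ∃ y : A → ℝ, (∀ j, 0 ≤ y j) ∧ ∑ j, y j • δ j = x}

/-- The sum of the generators. -/
noncomputable def p0 : Fin n → ℝ := ∑ j, δ j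

/-- Relative boundary of the cone. -/
def Bd : Set (Fin n → ℝ) := {x | x ∈ Cn δ ∧ ∀ ε : ℝ, 0 < ε → x - ε • p0 δ ∉ Cn δ}

/-- The boundary points whose support contains `N`. -/
def G : Set (Fin n → ℝ) := {x | x ∈ Bd δ ∧ ∀ i ∈ N, 0 < x i}

/-- Linear relations. -/
def K : Set (A → ℝ) := {k | ∑ j, k j • δ j = 0}

theorem Cn_smul {x : Fin n → ℝ} (hx : x ∈ Cn δ) {c : ℝ} (hc : 0 ≤ c) : c • x ∈ Cn δ := by
  obtain ⟨y, h1, rfl⟩ := hx
  refine ⟨c • y, fun j => mul_nonneg hc (h1 j), ?_⟩
  rw [Finset.smul_sum]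
  simp [smul_smul]

theorem Bd_smul {x : Fin n → ℝ} (hx : x ∈ Bd δ) {c : ℝ} (hc : 0 < c) : c • x ∈ Bd δ := by
  refine ⟨Cn_smul δ hx.1 hc.le, ?_⟩
  intro ε hε h
  apply hx.2 (c⁻¹ * ε) (by positivity)
  have := Cn_smul δ h (inv_pos.mpr hc).le
  rw [smul_sub, smul_smul, smul_smul, inv_mul_cancel₀ hc.ne', one_smul] at this
  exact this

theorem Cn_nonneg (hδ : ∀ j i, 0 ≤ δ j i) {x : Fin n → ℝ} (hx : x ∈ Cn δ) (i : Fin n) :
    0 ≤ x i := by
  obtain ⟨y, h1, rfl⟩ := hx
  simp only [Finset.sum_apply, Pi.smul_apply, smul_eq_mul]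
  exact Finset.sum_nonneg fun j _ => mul_nonneg (h1 j) (hδ j i)

theorem p0_pos (hδ : ∀ j i, 0 ≤ δ j i) (i : Fin n) (h : ∃ j, 0 < δ j i) : 0 < p0 δ i := by
  obtain ⟨j, hj⟩ := h
  unfold p0
  rw [Finset.sum_apply]
  exact lt_of_lt_of_le hj (Finset.single_le_sum (fun j _ => hδ j i) (Finset.mem_univ j))

/-- Data extracted from the half space description. -/
theorem data (hδ : ∀ j i, 0 ≤ δ j i) (i0 : Fin n) (hi0 : ∃ j, 0 < δ j i0) :
    ∃ (s : (Fin n → ℝ) → A → ℝ) (t : (Fin n → ℝ) → ℝ), Continuous s ∧ Continuous t ∧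
      (∀ x ∈ Cn δ, (∀ j, 0 ≤ s x j) ∧ ∑ j, s x j • δ j = x) ∧
      (∀ c : ℝ, 0 ≤ c → ∀ x, s (c • x) = c • s x) ∧
      (∀ x ∈ Cn δ, 0 ≤ t x ∧ x - t x • p0 δ ∈ Bd δ) ∧
      (∀ x c, t (x + c • p0 δ) = t x + c) ∧ (∀ x ∈ Bd δ, t x = 0) := by
  classical
  obtain ⟨T, s, h1, h2, h3, h4⟩ := weyl' δ
  have hC : ∀ x, x ∈ Cn δ ↔ ∀ ψ ∈ T, 0 ≤ ψ x := by
    intro x
    constructor
    · rintro ⟨y, hy, rfl⟩ ψ hψ
      rw [map_sum]
      apply Finset.sum_nonneg
      intro j _
      rw [map_smul, smul_eq_mul]
      exact mul_nonneg (hy j) (h4 j ψ hψ)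
    · intro hx
      exact ⟨s x, (h2 x hx).1, (h2 x hx).2⟩
  have hp0 : ∀ ψ ∈ T, 0 ≤ ψ (p0 δ) := by
    intro ψ hψ
    unfold p0
    rw [map_sum]
    exact Finset.sum_nonneg fun j _ => h4 j ψ hψ
  let B := T.filter (fun ψ => 0 < ψ (p0 δ))
  have hB : B.Nonempty := by
    by_contra hcon
    rw [Finset.not_nonempty_iff_eq_empty] at hcon
    have h5 : -p0 δ ∈ Cn δ := by
      rw [hC]
      intro ψ hψ
      have h6 : ¬ 0 < ψ (p0 δ) := by
        intro h7
        have : ψ ∈ B := Finset.mem_filter.mpr ⟨hψ, h7⟩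
        rw [hcon] at this
        exact absurd this (Finset.notMem_empty _)
      rw [map_neg]
      linarith [hp0 ψ hψ]
    have h6 := Cn_nonneg δ hδ h5 i0
    have h7 := p0_pos δ hδ i0 hi0
    simp only [Pi.neg_apply] at h6
    linarith
  let t : (Fin n → ℝ) → ℝ := fun x => B.inf' hB (fun ψ => ψ x / ψ (p0 δ))
  have hBp : ∀ ψ ∈ B, 0 < ψ (p0 δ) := fun ψ hψ => (Finset.mem_filter.mp hψ).2
  have hadd : ∀ x c, t (x + c • p0 δ) = t x + c := by
    intro x c
    have h5 : ∀ ψ ∈ B, ψ (x + c • p0 δ) / ψ (p0 δ) = ψ x / ψ (p0 δ) + c := by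
      intro ψ hψ
      have := hBp ψ hψ
      rw [map_add, map_smul, smul_eq_mul]
      field_simp
    apply le_antisymm
    · obtain ⟨ψ, hψ, he⟩ := Finset.exists_mem_eq_inf' hB (fun ψ => ψ x / ψ (p0 δ))
      have h6 : t x = ψ x / ψ (p0 δ) := he
      rw [h6, ← h5 ψ hψ]
      exact Finset.inf'_le _ hψ
    · apply Finset.le_inf'
      intro ψ hψ
      rw [h5 ψ hψ]
      have : t x ≤ ψ x / ψ (p0 δ) := Finset.inf'_le (fun ψ : (Fin n → ℝ) →ₗ[ℝ] ℝ => ψ x / ψ (p0 δ)) hψ
      linarith
  have hmem : ∀ x ∈ Cn δ, ∀ c : ℝ, (x - c • p0 δ ∈ Cn δ ↔ c ≤ t x) := by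
    intro x hx c
    constructor
    · intro h
      apply Finset.le_inf'
      intro ψ hψ
      have h6 := (hC _).mp h ψ (Finset.mem_filter.mp hψ).1
      rw [map_sub, map_smul, smul_eq_mul] at h6
      rw [le_div_iff₀ (hBp ψ hψ)]
      linarith
    · intro h
      rw [hC]
      intro ψ hψ
      rw [map_sub, map_smul, smul_eq_mul]
      by_cases h7 : 0 < ψ (p0 δ)
      · have h8 : t x ≤ ψ x / ψ (p0 δ) :=
          Finset.inf'_le (fun ψ : (Fin n → ℝ) →ₗ[ℝ] ℝ => ψ x / ψ (p0 δ)) (Finset.mem_filter.mpr ⟨hψ, h7⟩)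
        have h9 : c ≤ ψ x / ψ (p0 δ) := h.trans h8
        rw [le_div_iff₀ h7] at h9
        linarith
      · have h8 : ψ (p0 δ) = 0 := le_antisymm (not_lt.mp h7) (hp0 ψ hψ)
        rw [h8]
        simpa using (hC x).mp hx ψ hψ
  have ht0 : ∀ x ∈ Cn δ, 0 ≤ t x := by
    intro x hx
    rw [← hmem x hx 0]
    simpa using hx
  refine ⟨s, t, h1, ?_, ?_, h3, ?_, hadd, ?_⟩
  · apply Continuous.finset_inf'_apply
    intro ψ _
    exact ψ.continuous_of_finiteDimensional.div_const _
  · intro x hx
    exact h2 x ((hC x).mp hx)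
  · intro x hx
    refine ⟨ht0 x hx, (hmem x hx _).mpr le_rfl, ?_⟩
    intro ε hε h
    have h6 : x - (t x + ε) • p0 δ ∈ Cn δ := by
      rw [add_smul, ← sub_sub]
      exact h
    rw [hmem x hx] at h6
    linarith
  · intro x hx
    by_contra hne
    have h5 : 0 < t x := lt_of_le_of_ne (ht0 x hx.1) (Ne.symm hne)
    exact hx.2 (t x) h5 ((hmem x hx.1 _).mpr le_rfl)

theorem step_two [Nonempty A] (hδ : ∀ j i, 0 ≤ δ j i) (hδ0 : ∀ j, δ j ≠ 0) (hN : N.Nonempty)
    (hNc : ∀ i ∈ N, ∃ j, 0 < δ j i) : Nonempty (Yh δ N ≃ₕ Jn (G δ N) (K δ)) := by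
  classical
  obtain ⟨i0, hi0⟩ := hN
  obtain ⟨s, t, hs, ht, hs1, hs2, ht1, ht2, ht3⟩ := data δ hδ i0 (hNc i0 hi0)
  let pr : (A → ℝ) → Fin n → ℝ := fun y => ∑ j, y j • δ j
  have hprc : Continuous pr := by
    apply continuous_finset_sum
    intro j _
    exact (continuous_apply j).smul continuous_const
  have hpr_add : ∀ a b, pr (a + b) = pr a + pr b := by
    intro a b
    simp [pr, add_smul, Finset.sum_add_distrib]
  have hpr_const : ∀ c : ℝ, pr (fun _ => c) = c • p0 δ := by
    intro c
    simp [pr, p0, Finset.smul_sum]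
  let W : Set ((Fin n → ℝ) × (A → ℝ)) := {p | p.1 ∈ Bd δ ∧ p.2 ∈ K δ ∧
    ((∀ i ∈ N, 0 < p.1 i) ∨ ∃ j, s p.1 j + p.2 j < 0)}
  have hs0 : s 0 = 0 := by
    have := hs2 0 le_rfl 0
    simpa using this
  -- first part
  have part1 : Nonempty (Yh δ N ≃ₕ W) := by
    let f : (A → ℝ) → (Fin n → ℝ) × (A → ℝ) := fun y =>
      (pr y - t (pr y) • p0 δ, fun j => y j - s (pr y - t (pr y) • p0 δ) j - t (pr y))
    let g : (Fin n → ℝ) × (A → ℝ) → (A → ℝ) := fun p j =>
      s p.1 j + p.2 j + mx (fun j => -(s p.1 j + p.2 j))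
    have hfc : Continuous f := by
      have h1 : Continuous fun y => pr y - t (pr y) • p0 δ :=
        hprc.sub ((ht.comp hprc).smul continuous_const)
      apply h1.prodMk
      apply continuous_pi
      intro j
      exact ((continuous_apply j).sub ((continuous_apply j).comp (hs.comp h1))).sub (ht.comp hprc)
    have hgc : Continuous g := by
      have h1 : ∀ j, Continuous fun p : (Fin n → ℝ) × (A → ℝ) => s p.1 j + p.2 j := by
        intro j
        exact ((continuous_apply j).comp (hs.comp continuous_fst)).add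
          ((continuous_apply j).comp continuous_snd)
      apply continuous_pi
      intro j
      apply (h1 j).add
      apply mx_cont.comp
      exact continuous_pi fun j => (h1 j).neg
    have hfm : MapsTo f (Yh δ N) W := by
      intro y hy
      obtain ⟨h1, ⟨j0, h2⟩, h3⟩ := hy
      have hC : pr y ∈ Cn δ := ⟨y, h1, rfl⟩
      obtain ⟨h4, h5⟩ := ht1 _ hC
      refine ⟨h5, ?_, ?_⟩
      · have h6 : (fun j => y j - s (pr y - t (pr y) • p0 δ) j - t (pr y)) +
            (s (pr y - t (pr y) • p0 δ) + fun _ => t (pr y)) = y := by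
          funext j; simp
        have h7 := congrArg pr h6
        rw [hpr_add, hpr_add, hpr_const] at h7
        have h8 : pr (s (pr y - t (pr y) • p0 δ)) = pr y - t (pr y) • p0 δ := (hs1 _ h5.1).2
        rw [h8] at h7
        have h9 : pr (fun j => y j - s (pr y - t (pr y) • p0 δ) j - t (pr y)) = 0 := by
          have : pr (fun j => y j - s (pr y - t (pr y) • p0 δ) j - t (pr y)) + pr y = pr y := by
            calc _ = pr (fun j => y j - s (pr y - t (pr y) • p0 δ) j - t (pr y)) +
                  (pr y - t (pr y) • p0 δ + t (pr y) • p0 δ) := by rw [sub_add_cancel]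
              _ = pr y := h7
          simpa using this
        exact h9
      · by_cases h6 : ∀ i ∈ N, 0 < (pr y - t (pr y) • p0 δ) i
        · exact Or.inl h6
        · right
          push Not at h6
          obtain ⟨i, hi, h7⟩ := h6
          obtain ⟨j1, h8, h9⟩ := h3 i hi
          have h10 : 0 < pr y i := by
            simp only [pr, Finset.sum_apply, Pi.smul_apply, smul_eq_mul]
            exact lt_of_lt_of_le (mul_pos h8 h9)
              (Finset.single_le_sum (f := fun j => y j * δ j i)
                (fun j _ => mul_nonneg (h1 j) (hδ j i)) (Finset.mem_univ j1))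
          have h11 : 0 < t (pr y) := by
            by_contra hcon
            have h12 : t (pr y) = 0 := le_antisymm (not_lt.mp hcon) h4
            rw [h12] at h7
            simp only [zero_smul, sub_zero] at h7
            linarith
          refine ⟨j0, ?_⟩
          show s (pr y - t (pr y) • p0 δ) j0 + (y j0 - s (pr y - t (pr y) • p0 δ) j0 - t (pr y)) < 0
          rw [h2]
          linarith
    -- facts on g
    have hmxn : ∀ p ∈ W, 0 ≤ mx (fun j => -(s p.1 j + p.2 j)) := by
      intro p hp
      by_contra hcon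
      push Not at hcon
      obtain ⟨h1, h2, h3⟩ := hp
      apply h1.2 (-mx (fun j => -(s p.1 j + p.2 j))) (by linarith)
      refine ⟨fun j => s p.1 j + p.2 j + mx (fun j => -(s p.1 j + p.2 j)), ?_, ?_⟩
      · intro j
        have := le_mx (fun j => -(s p.1 j + p.2 j)) j
        linarith
      · have h4 : (fun j => s p.1 j + p.2 j + mx (fun j => -(s p.1 j + p.2 j))) =
            (s p.1 + p.2) + fun _ => mx (fun j => -(s p.1 j + p.2 j)) := by
          funext j; simp
        have h5 := congrArg pr h4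
        rw [hpr_add, hpr_add, hpr_const] at h5
        have h6 : pr (s p.1) = p.1 := (hs1 _ h1.1).2
        have h7 : pr p.2 = 0 := h2
        rw [h6, h7] at h5
        show pr _ = _
        rw [h5]
        simp
    have hprg : ∀ p ∈ W, pr (g p) = p.1 + mx (fun j => -(s p.1 j + p.2 j)) • p0 δ := by
      intro p hp
      obtain ⟨h1, h2, h3⟩ := hp
      have h4 : g p = (s p.1 + p.2) + fun _ => mx (fun j => -(s p.1 j + p.2 j)) := by
        funext j; simp [g]
      rw [h4, hpr_add, hpr_add, hpr_const]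
      have h6 : pr (s p.1) = p.1 := (hs1 _ h1.1).2
      have h7 : pr p.2 = 0 := h2
      rw [h6, h7]
      simp
    have hgm : MapsTo g W (Yh δ N) := by
      intro p hp
      have hp' := hp
      obtain ⟨h1, h2, h3⟩ := hp
      have hg0 : ∀ j, 0 ≤ g p j := by
        intro j
        have := le_mx (fun j => -(s p.1 j + p.2 j)) j
        simp only [g] at this ⊢
        linarith
      refine ⟨hg0, ?_, ?_⟩
      · obtain ⟨j, hj⟩ := exists_mx (fun j => -(s p.1 j + p.2 j))
        exact ⟨j, by simp only [g]; rw [← hj]; ring⟩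
      · intro i hi
        have h4 : 0 < pr (g p) i := by
          rw [hprg p hp']
          simp only [Pi.add_apply, Pi.smul_apply, smul_eq_mul]
          have h5 := p0_pos δ hδ i (hNc i hi)
          have h6 := Cn_nonneg δ hδ h1.1 i
          have h7 := hmxn p hp'
          rcases h3 with h3 | ⟨j, h3⟩
          · have := h3 i hi
            have := mul_nonneg h7 h5.le
            linarith
          · have h8 := le_mx (fun j => -(s p.1 j + p.2 j)) j
            have : 0 < mx (fun j => -(s p.1 j + p.2 j)) := by linarith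
            have := mul_pos this h5
            linarith
        by_contra hcon
        push Not at hcon
        have h5 : pr (g p) i ≤ 0 := by
          simp only [pr, Finset.sum_apply, Pi.smul_apply, smul_eq_mul]
          apply Finset.sum_nonpos
          intro j _
          rcases eq_or_lt_of_le (hg0 j) with h | h
          · rw [← h]; simp
          · exact mul_nonpos_of_nonneg_of_nonpos h.le (hcon j h)
        linarith
    have hgf : ∀ y ∈ Yh δ N, g (f y) = y := by
      intro y hy
      obtain ⟨h1, ⟨j0, h2⟩, h3⟩ := hy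
      have h4 : mx (fun j => -(s (f y).1 j + (f y).2 j)) = t (pr y) := by
        apply mx_eq _ _ _ j0
        · simp only [f, h2]; ring
        · intro j
          simp only [f]
          linarith [h1 j]
      funext j
      simp only [g]
      rw [h4]
      simp only [f]
      ring
    have hfg : ∀ p ∈ W, f (g p) = p := by
      intro p hp
      have h1 := hprg p hp
      have h2 : t (pr (g p)) = mx (fun j => -(s p.1 j + p.2 j)) := by
        rw [h1, ht2, ht3 _ hp.1]
        simp
      have h3 : pr (g p) - t (pr (g p)) • p0 δ = p.1 := by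
        rw [h2, h1]; simp
      apply Prod.ext
      · simp only [f]
        exact h3
      · simp only [f]
        rw [h3, h2]
        funext j
        simp only [g]
        ring
    apply heq_of f g hfc.continuousOn hgc.continuousOn hfm hgm
    · intro x hx r _ _
      rw [hgf x hx]
      rw [← add_smul]
      simpa using hx
    · intro x hx r _ _
      rw [hfg x hx]
      rw [← add_smul]
      simpa using hx
  have part2 : Nonempty (W ≃ₕ Jn (G δ N) (K δ)) := by
    let m : (Fin n → ℝ) → ℝ := fun x => N.inf' ⟨i0, hi0⟩ x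
    have hmc : Continuous m := by
      apply Continuous.finset_inf'_apply
      intro i _
      exact continuous_apply i
    have hm0 : ∀ x ∈ Cn δ, 0 ≤ m x := by
      intro x hx
      apply Finset.le_inf'
      intro i _
      exact Cn_nonneg δ hδ hx i
    have hmp : ∀ x, 0 < m x ↔ ∀ i ∈ N, 0 < x i := by
      intro x
      simp only [m]
      rw [Finset.lt_inf'_iff]
    have h0C : (0 : Fin n → ℝ) ∈ Cn δ := ⟨0, fun j => le_rfl, by simp⟩
    have h0B : (0 : Fin n → ℝ) ∈ Bd δ := by
      refine ⟨h0C, ?_⟩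
      intro ε hε h
      have h1 := Cn_nonneg δ hδ h i0
      have h2 := p0_pos δ hδ i0 (hNc i0 hi0)
      simp only [zero_sub, Pi.neg_apply, Pi.smul_apply, smul_eq_mul] at h1
      have := mul_pos hε h2
      linarith
    have hneg : ∀ k ∈ K δ, k ≠ 0 → ∃ j, k j < 0 := by
      intro k hk hk0
      by_contra hcon
      push Not at hcon
      apply hk0
      funext j
      by_contra hj
      have h1 : 0 < k j := lt_of_le_of_ne (hcon j) (Ne.symm hj)
      apply hδ0 j
      funext i
      have h2 := congrFun hk i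
      simp only [Finset.sum_apply, Pi.smul_apply, smul_eq_mul, Pi.zero_apply] at h2
      rw [Finset.sum_eq_zero_iff_of_nonneg
        (fun j _ => mul_nonneg (hcon j) (hδ j i))] at h2
      have h3 := h2 j (Finset.mem_univ j)
      simp only [Pi.zero_apply]
      rcases mul_eq_zero.mp h3 with h4 | h4
      · exact absurd h4 h1.ne'
      · exact h4
    have hden : ∀ p ∈ W, 0 < m p.1 + ‖p.2‖ := by
      intro p hp
      obtain ⟨h1, h2, h3⟩ := hp
      rcases h3 with h3 | ⟨j, h3⟩
      · have := (hmp p.1).mpr h3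
        have := norm_nonneg p.2
        linarith
      · have h4 := hm0 _ h1.1
        have h5 : p.2 ≠ 0 := by
          intro h6
          rw [h6] at h3
          have := (hs1 _ h1.1).1 j
          simp only [Pi.zero_apply, add_zero] at h3
          linarith
        have := norm_pos_iff.mpr h5
        linarith
    let φ : (Fin n → ℝ) × (A → ℝ) → ℝ := fun p => m p.1 / (m p.1 + ‖p.2‖)
    have hφ0 : ∀ p ∈ W, 0 ≤ φ p := fun p hp => div_nonneg (hm0 _ hp.1.1) (hden p hp).le
    have hφ1 : ∀ p ∈ W, φ p ≤ 1 := by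
      intro p hp
      rw [div_le_one (hden p hp)]
      have := norm_nonneg p.2
      linarith
    have hφc : ContinuousOn φ W := by
      apply ContinuousOn.div
      · exact (hmc.comp continuous_fst).continuousOn
      · exact ((hmc.comp continuous_fst).add continuous_snd.norm).continuousOn
      · intro p hp
        exact (hden p hp).ne'
    have hsub : Jn (G δ N) (K δ) ⊆ W := by
      intro p hp
      rcases hp with ⟨⟨h1, h2⟩, h3⟩ | ⟨h1, h2, h3⟩
      · exact ⟨h1, h3, Or.inl h2⟩
      · refine ⟨by rw [h1]; exact h0B, h2, Or.inr ?_⟩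
        obtain ⟨j, hj⟩ := hneg _ h2 h3
        exact ⟨j, by rw [h1, hs0]; simpa using hj⟩
    -- scaling the first coordinate
    have hscale : ∀ p ∈ W, ∀ c : ℝ, 0 ≤ c → c ≤ 1 → (0 < m p.1 → 0 < c) →
        (c • p.1, p.2) ∈ W := by
      intro p hp c h0 h1 h2
      obtain ⟨h3, h4, h5⟩ := hp
      rcases eq_or_lt_of_le h0 with hc | hc
      · subst hc
        have h6 : ¬ 0 < m p.1 := fun h => lt_irrefl _ (h2 h)
        rcases h5 with h5 | ⟨j, h5⟩
        · exact absurd ((hmp _).mpr h5) h6
        · refine ⟨by simpa using h0B, h4, Or.inr ⟨j, ?_⟩⟩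
          have := (hs1 _ h3.1).1 j
          simp only [zero_smul, hs0, Pi.zero_apply, zero_add]
          linarith
      · refine ⟨Bd_smul δ h3 hc, h4, ?_⟩
        rcases h5 with h5 | ⟨j, h5⟩
        · left
          intro i hi
          exact mul_pos hc (h5 i hi)
        · right
          refine ⟨j, ?_⟩
          have h6 := (hs1 _ h3.1).1 j
          simp only [hs2 c h0, Pi.smul_apply, smul_eq_mul]
          have : c * s p.1 j ≤ 1 * s p.1 j := mul_le_mul_of_nonneg_right h1 h6
          linarith
    apply heq_of (fun p => (φ p • p.1, p.2)) (fun p => p)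
    · exact (hφc.smul continuousOn_fst).prodMk continuousOn_snd
    · exact continuousOn_id
    · intro p hp
      obtain ⟨h1, h2, h3⟩ := hp
      rcases eq_or_lt_of_le (hm0 _ h1.1) with h | h
      · right
        have h4 : φ p = 0 := by simp [φ, ← h]
        refine ⟨by simp [h4], h2, ?_⟩
        have h5 := hden p ⟨h1, h2, h3⟩
        rw [← h, zero_add] at h5
        exact norm_pos_iff.mp h5
      · left
        have h4 : 0 < φ p := div_pos h (hden p ⟨h1, h2, h3⟩)
        refine ⟨⟨Bd_smul δ h1 h4, ?_⟩, h2⟩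
        intro i hi
        exact mul_pos h4 ((hmp _).mp h i hi)
    · intro p hp
      exact hsub hp
    · intro p hp r h0 h1
      have h2 : (1 - r) • p + r • ((φ p • p.1, p.2) : (Fin n → ℝ) × (A → ℝ)) =
          (((1 - r) + r * φ p) • p.1, p.2) := by
        apply Prod.ext
        · simp only [Prod.fst_add, Prod.smul_fst, add_smul, smul_smul]
        · simp only [Prod.snd_add, Prod.smul_snd]
          rw [← add_smul]; simp
      rw [h2]
      apply hscale p hp
      · have := mul_nonneg h0 (hφ0 p hp)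
        linarith
      · have := mul_le_mul_of_nonneg_left (hφ1 p hp) h0
        linarith
      · intro h3
        have h4 : 0 < φ p := div_pos h3 (hden p hp)
        rcases eq_or_lt_of_le h0 with h | h
        · rw [← h]; simp
        · have := mul_pos h h4
          linarith
    · intro p hp r h0 h1
      have h2 : (1 - r) • p + r • ((φ p • p.1, p.2) : (Fin n → ℝ) × (A → ℝ)) =
          (((1 - r) + r * φ p) • p.1, p.2) := by
        apply Prod.ext
        · simp only [Prod.fst_add, Prod.smul_fst, add_smul, smul_smul]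
        · simp only [Prod.snd_add, Prod.smul_snd]
          rw [← add_smul]; simp
      rw [h2]
      rcases hp with ⟨⟨h3, h4⟩, h5⟩ | ⟨h3, h4, h5⟩
      · left
        have hW : p ∈ W := hsub (Or.inl ⟨⟨h3, h4⟩, h5⟩)
        have h6 : 0 < φ p := div_pos ((hmp _).mpr h4) (hden p hW)
        have h7 : 0 < (1 - r) + r * φ p := by
          rcases eq_or_lt_of_le h0 with h | h
          · rw [← h]; simp
          · have := mul_pos h h6
            linarith
        refine ⟨⟨Bd_smul δ h3 h7, ?_⟩, h5⟩
        intro i hi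
        exact mul_pos h7 (h4 i hi)
      · right
        exact ⟨by simp [h3], h4, h5⟩
  exact heq_trans part1 part2

end Pool.Agent.Q19.DB
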